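import Mathlib

set_option autoImplicit false
open Finset

/-! # Squared edge lengths of labelings of complete binary trees: the lower bound

Vertices in heap order: `1` = root, children of `v` : `2 v`, `2 v + 1`. -/

namespace Pool.Agent.H86.BT

/-- sum of `F` over the level `d` -/
def lev (d : ℕ) (F : ℕ → ℝ) : ℝ := ∑ v ∈ Ico (2 ^ d) (2 ^ (d + 1)), F v

lemma sum_Ico_two (a b : ℕ) (F : ℕ → ℝ) :
    ∑ v ∈ Ico (2 * a) (2 * b), F v = ∑ v ∈ Ico a b, (F (2 * v) + F (2 * v + 1)) := by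
  by_cases h : a ≤ b
  · induction b, h using Nat.le_induction with
    | base => simp
    | succ b hb ih =>
      rw [sum_Ico_succ_top hb, ← ih, show 2 * (b + 1) = 2 * b + 1 + 1 by ring,
        sum_Ico_succ_top (by omega), sum_Ico_succ_top (by omega)]
      ring
  · rw [Ico_eq_empty (by omega), Ico_eq_empty (by omega)]
    simp

lemma lev_succ (d : ℕ) (F : ℕ → ℝ) : lev (d + 1) F = lev d fun v => F (2 * v) + F (2 * v + 1) := by
  unfold lev
  rw [← sum_Ico_two, pow_succ' 2 d, pow_succ' 2 (d + 1), pow_succ' 2 d]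

lemma lev_add (d : ℕ) (F G : ℕ → ℝ) : lev d (fun v => F v + G v) = lev d F + lev d G :=
  sum_add_distrib

lemma lev_sub (d : ℕ) (F G : ℕ → ℝ) : lev d (fun v => F v - G v) = lev d F - lev d G :=
  sum_sub_distrib ..

lemma lev_mul (d : ℕ) (c : ℝ) (F : ℕ → ℝ) : lev d (fun v => c * F v) = c * lev d F := by
  unfold lev; rw [mul_sum]

lemma lev_const (d : ℕ) (c : ℝ) : lev d (fun _ => c) = 2 ^ d * c := by
  unfold lev
  rw [sum_const, Nat.card_Ico, nsmul_eq_mul]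
  congr 1
  have : 2 ^ (d + 1) - 2 ^ d = 2 ^ d := by rw [pow_succ]; omega
  rw [this]
  push_cast
  ring

lemma lev_le {d : ℕ} {F G : ℕ → ℝ} (h : ∀ v, 2 ^ d ≤ v → v < 2 ^ (d + 1) → F v ≤ G v) :
    lev d F ≤ lev d G := by
  refine sum_le_sum fun v hv => ?_
  rw [mem_Ico] at hv
  exact h v hv.1 hv.2

lemma lev_congr {d : ℕ} {F G : ℕ → ℝ} (h : ∀ v, 2 ^ d ≤ v → v < 2 ^ (d + 1) → F v = G v) :
    lev d F = lev d G := by
  refine sum_congr rfl fun v hv => ?_
  rw [mem_Ico] at hv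
  exact h v hv.1 hv.2

lemma lev_nonneg {d : ℕ} {F : ℕ → ℝ} (h : ∀ v, 0 ≤ F v) : 0 ≤ lev d F :=
  sum_nonneg fun v _ => h v

/-- sum of the squared edge lengths of the tree with the levels `0 .. n` -/
def En (f : ℕ → ℝ) (n : ℕ) : ℝ := ∑ c ∈ Ico 2 (2 ^ (n + 1)), (f c - f (c / 2)) ^ 2

/-- squared lengths of the two edges below a vertex -/
def ed (f : ℕ → ℝ) (v : ℕ) : ℝ := (f v - f (2 * v)) ^ 2 + (f v - f (2 * v + 1)) ^ 2

lemma lev_ed (f : ℕ → ℝ) (d : ℕ) : lev (d + 1) (fun c => (f c - f (c / 2)) ^ 2) = lev d (ed f) := by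
  rw [lev_succ]
  refine lev_congr fun v _ _ => ?_
  have h1 : 2 * v / 2 = v := by omega
  have h2 : (2 * v + 1) / 2 = v := by omega
  rw [h1, h2]
  unfold ed
  ring

lemma En_eq (f : ℕ → ℝ) (n : ℕ) : En f n = ∑ d ∈ range n, lev d (ed f) := by
  induction n with
  | zero => simp [En]
  | succ n ih =>
    rw [sum_range_succ, ← ih, ← lev_ed]
    unfold En lev
    rw [sum_Ico_consecutive]
    · rw [pow_succ]
      have := Nat.one_le_two_pow (n := n)
      omega
    · exact Nat.pow_le_pow_right (by norm_num) (by omega)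

/-! ### Sums over subtrees -/

/-- sum of `f` over the subtree of `v` with `m` levels below `v` -/
def sm (f : ℕ → ℝ) : ℕ → ℕ → ℝ
  | 0, v => f v
  | m + 1, v => f v + sm f m (2 * v) + sm f m (2 * v + 1)

/-- size of the subtree -/
def sz (m : ℕ) : ℝ := 2 ^ (m + 1) - 1

lemma sz_zero : sz 0 = 1 := by unfold sz; norm_num

lemma sz_succ (m : ℕ) : sz (m + 1) = 2 * sz m + 1 := by unfold sz; rw [pow_succ]; ring

lemma one_le_sz (m : ℕ) : 1 ≤ sz m := by
  unfold sz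
  have : (2 : ℝ) ^ 1 ≤ 2 ^ (m + 1) := pow_le_pow_right₀ (by norm_num) (by omega)
  linarith

/-- mean -/
noncomputable def mu (f : ℕ → ℝ) (m v : ℕ) : ℝ := sm f m v / sz m

/-- variance -/
noncomputable def var (f : ℕ → ℝ) (m v : ℕ) : ℝ := sm (fun w => f w ^ 2) m v / sz m - mu f m v ^ 2

lemma mu_zero (f : ℕ → ℝ) (v : ℕ) : mu f 0 v = f v := by
  unfold mu; rw [sz_zero, div_one]; rfl

lemma var_zero (f : ℕ → ℝ) (v : ℕ) : var f 0 v = 0 := by
  unfold var; rw [mu_zero, sz_zero, div_one]; simp [sm]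

lemma mu_succ (f : ℕ → ℝ) (m v : ℕ) :
    sz (m + 1) * mu f (m + 1) v = f v + sz m * (mu f m (2 * v) + mu f m (2 * v + 1)) := by
  have h1 : sz m ≠ 0 := by have := one_le_sz m; positivity
  have h2 : sz (m + 1) ≠ 0 := by have := one_le_sz (m + 1); positivity
  unfold mu
  rw [sm]
  field_simp
  ring

lemma var_succ (f : ℕ → ℝ) (m v : ℕ) :
    sz (m + 1) * (var f (m + 1) v + mu f (m + 1) v ^ 2) = f v ^ 2 +
      sz m * (var f m (2 * v) + mu f m (2 * v) ^ 2 + var f m (2 * v + 1) + mu f m (2 * v + 1) ^ 2) := by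
  have h1 : sz m ≠ 0 := by have := one_le_sz m; positivity
  have h2 : sz (m + 1) ≠ 0 := by have := one_le_sz (m + 1); positivity
  unfold var
  rw [sm]
  field_simp
  ring

/-- the identity at a vertex -/
lemma vid {r r0 r1 μ0 μ1 v0 v1 N' μ va N : ℝ} (hN' : 0 < N') (hN : N = 2 * N' + 1)
    (h1 : N * μ = r + N' * (μ0 + μ1))
    (h2 : N * (va + μ ^ 2) = r ^ 2 + N' * (v0 + μ0 ^ 2 + v1 + μ1 ^ 2)) :
    (r - r0) ^ 2 + (r - r1) ^ 2 + ((r0 - μ0) ^ 2 + (r1 - μ1) ^ 2) =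
      (r - μ) ^ 2 + N / (N - 1) * va - (v0 + v1) / 2 +
        (1 / N - 1 / N ^ 2) * (r - (μ0 + μ1) / 2) ^ 2 +
        2 * ((r0 - (r + μ0) / 2) ^ 2 + (r1 - (r + μ1) / 2) ^ 2) := by
  have hN0 : N ≠ 0 := by rw [hN]; positivity
  have hN1 : N - 1 = 2 * N' := by rw [hN]; ring
  have e1 : μ = (r + N' * (μ0 + μ1)) / N := by field_simp; linarith
  have e2 : va = (r ^ 2 + N' * (v0 + μ0 ^ 2 + v1 + μ1 ^ 2)) / N - μ ^ 2 := by
    field_simp; linarith
  rw [hN1, e2, e1, hN]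
  rw [hN] at hN0
  field_simp
  ring

/-- `root - mean of the means of the children` -/
noncomputable def zz (f : ℕ → ℝ) (m v : ℕ) : ℝ := f v - (mu f m (2 * v) + mu f m (2 * v + 1)) / 2

/-- half difference of the means of the children -/
noncomputable def bb (f : ℕ → ℝ) (m v : ℕ) : ℝ := (mu f m (2 * v + 1) - mu f m (2 * v)) / 2

/-- deviations of the children from the midpoints -/
noncomputable def ss (f : ℕ → ℝ) (m v : ℕ) : ℝ :=
  (f (2 * v) - (f v + mu f m (2 * v)) / 2) ^ 2 + (f (2 * v + 1) - (f v + mu f m (2 * v + 1)) / 2) ^ 2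

lemma ss_nonneg (f : ℕ → ℝ) (m v : ℕ) : 0 ≤ ss f m v := by unfold ss; positivity

lemma vertex (f : ℕ → ℝ) (m v : ℕ) :
    ed f v + ((f (2 * v) - mu f m (2 * v)) ^ 2 + (f (2 * v + 1) - mu f m (2 * v + 1)) ^ 2) =
      (f v - mu f (m + 1) v) ^ 2 + sz (m + 1) / (sz (m + 1) - 1) * var f (m + 1) v -
        (var f m (2 * v) + var f m (2 * v + 1)) / 2 +
        (1 / sz (m + 1) - 1 / sz (m + 1) ^ 2) * zz f m v ^ 2 + 2 * ss f m v := by
  have h := vid (r := f v) (r0 := f (2 * v)) (r1 := f (2 * v + 1)) (μ0 := mu f m (2 * v))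
    (μ1 := mu f m (2 * v + 1)) (v0 := var f m (2 * v)) (v1 := var f m (2 * v + 1)) (N' := sz m)
    (μ := mu f (m + 1) v) (va := var f (m + 1) v) (N := sz (m + 1))
    (lt_of_lt_of_le one_pos (one_le_sz m)) (sz_succ m) (mu_succ f m v) (var_succ f m v)
  unfold ed zz ss
  exact h

/-- half difference of the means and variances -/
lemma beta (f : ℕ → ℝ) (m v : ℕ) :
    bb f m v ^ 2 = sz (m + 1) / (sz (m + 1) - 1) * var f (m + 1) v -
        (var f m (2 * v) + var f m (2 * v + 1)) / 2 - zz f m v ^ 2 / sz (m + 1) := by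
  have hN' : 0 < sz m := lt_of_lt_of_le one_pos (one_le_sz m)
  have hN := sz_succ m
  have h1 := mu_succ f m v
  have h2 := var_succ f m v
  unfold bb zz
  generalize sz (m + 1) = N at *
  generalize sz m = N' at *
  generalize mu f (m + 1) v = μ at *
  generalize var f (m + 1) v = va at *
  generalize mu f m (2 * v) = μ0 at *
  generalize mu f m (2 * v + 1) = μ1 at *
  have hN0 : N ≠ 0 := by rw [hN]; positivity
  have hN1 : N - 1 = 2 * N' := by rw [hN]; ring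
  have e1 : μ = (f v + N' * (μ0 + μ1)) / N := by field_simp; linarith
  have e2 : va = (f v ^ 2 + N' * (var f m (2 * v) + μ0 ^ 2 + var f m (2 * v + 1) + μ1 ^ 2)) / N -
      μ ^ 2 := by
    field_simp; linarith
  rw [hN1, e2, e1, hN]
  rw [hN] at hN0
  field_simp
  ring

/-! ### Level sums -/

section levels

variable (f : ℕ → ℝ) (n : ℕ)

/-- `(root - mean)^2`, level `d` -/
noncomputable def Yl (d : ℕ) : ℝ := lev d fun v => (f v - mu f (n - d) v) ^ 2

/-- variances -/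
noncomputable def Vl (d : ℕ) : ℝ := lev d fun v => var f (n - d) v

/-- `z^2` -/
noncomputable def Zl (d : ℕ) : ℝ := lev d fun v => zz f (n - (d + 1)) v ^ 2

/-- `β^2` -/
noncomputable def Bl (d : ℕ) : ℝ := lev d fun v => bb f (n - (d + 1)) v ^ 2

/-- deviations -/
noncomputable def Sl (d : ℕ) : ℝ := lev d fun v => ss f (n - (d + 1)) v

lemma Zl_nonneg (d : ℕ) : 0 ≤ Zl f n d := lev_nonneg fun _ => sq_nonneg _
lemma Bl_nonneg (d : ℕ) : 0 ≤ Bl f n d := lev_nonneg fun _ => sq_nonneg _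
lemma Sl_nonneg (d : ℕ) : 0 ≤ Sl f n d := lev_nonneg fun _ => ss_nonneg _ _ _
lemma Yl_nonneg (d : ℕ) : 0 ≤ Yl f n d := lev_nonneg fun _ => sq_nonneg _

variable {n}

lemma level {d : ℕ} (hd : d < n) : lev d (ed f) + Yl f n (d + 1) = Yl f n d +
    (sz (n - d) / (sz (n - d) - 1) * Vl f n d - Vl f n (d + 1) / 2 +
      (1 / sz (n - d) - 1 / sz (n - d) ^ 2) * Zl f n d + 2 * Sl f n d) := by
  obtain ⟨m, hm⟩ : ∃ m, n - d = m + 1 := ⟨n - d - 1, by omega⟩
  have hm' : n - (d + 1) = m := by omega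
  unfold Yl Vl Zl Sl
  rw [lev_succ, lev_succ, hm, hm']
  have h : ∀ v, ed f v + ((f (2 * v) - mu f m (2 * v)) ^ 2 +
      (f (2 * v + 1) - mu f m (2 * v + 1)) ^ 2) =
      (f v - mu f (m + 1) v) ^ 2 + (sz (m + 1) / (sz (m + 1) - 1) * var f (m + 1) v -
        (1 / 2) * (var f m (2 * v) + var f m (2 * v + 1)) +
        (1 / sz (m + 1) - 1 / sz (m + 1) ^ 2) * zz f m v ^ 2 + 2 * ss f m v) := by
    intro v
    rw [vertex]
    ring
  have h2 := lev_congr (d := d) (fun v _ _ => h v)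
  simp only [lev_add, lev_sub, lev_mul] at h2 ⊢
  linarith

lemma level_beta {d : ℕ} (hd : d < n) : Bl f n d =
    sz (n - d) / (sz (n - d) - 1) * Vl f n d - Vl f n (d + 1) / 2 - Zl f n d / sz (n - d) := by
  obtain ⟨m, hm⟩ : ∃ m, n - d = m + 1 := ⟨n - d - 1, by omega⟩
  have hm' : n - (d + 1) = m := by omega
  unfold Bl Vl Zl
  rw [lev_succ, hm, hm']
  have h : ∀ v, bb f m v ^ 2 = sz (m + 1) / (sz (m + 1) - 1) * var f (m + 1) v -
        (1 / 2) * (var f m (2 * v) + var f m (2 * v + 1)) - (1 / sz (m + 1)) * zz f m v ^ 2 := by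
    intro v
    rw [beta]
    ring
  have h2 := lev_congr (d := d) (fun v _ _ => h v)
  rw [lev_sub, lev_sub, lev_mul, lev_mul, lev_mul] at h2
  rw [h2]
  ring

/-- **The energy identity.** -/
theorem energy (f : ℕ → ℝ) (n : ℕ) : En f n = Yl f n 0 + ∑ d ∈ range n,
    (sz (n - d) / (sz (n - d) - 1) * Vl f n d - Vl f n (d + 1) / 2 +
      (1 / sz (n - d) - 1 / sz (n - d) ^ 2) * Zl f n d + 2 * Sl f n d) := by
  have key : ∀ j ≤ n, ∑ d ∈ range j, lev d (ed f) + Yl f n j = Yl f n 0 + ∑ d ∈ range j,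
      (sz (n - d) / (sz (n - d) - 1) * Vl f n d - Vl f n (d + 1) / 2 +
        (1 / sz (n - d) - 1 / sz (n - d) ^ 2) * Zl f n d + 2 * Sl f n d) := by
    intro j hj
    induction j with
    | zero => simp
    | succ j ih =>
      have h1 := ih (by omega)
      have h2 := level f (n := n) (d := j) (by omega)
      rw [sum_range_succ, sum_range_succ]
      linarith
  have h := key n le_rfl
  have h0 : Yl f n n = 0 := by
    unfold Yl
    have : ∀ v, (f v - mu f (n - n) v) ^ 2 = 0 := by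
      intro v
      rw [Nat.sub_self, mu_zero]
      ring
    rw [lev_congr (d := n) (fun v _ _ => this v), lev_const]
    ring
  rw [En_eq, ← h, h0, add_zero]

/-- **Recursion of `z`.** -/
lemma z_rec {d : ℕ} (hd : d + 1 < n) {θ : ℝ} (h0 : 0 < θ) :
    (1 - θ) / 2 * (Zl f n d + Bl f n d) - 1 / θ * Sl f n d ≤ Zl f n (d + 1) := by
  obtain ⟨m, hm⟩ : ∃ m, n - (d + 1) = m + 1 := ⟨n - (d + 1) - 1, by omega⟩
  have hm' : n - (d + 1 + 1) = m := by omega
  unfold Zl Bl Sl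
  rw [lev_succ, hm, hm', ← lev_add, ← lev_mul, ← lev_mul, ← lev_sub]
  refine lev_le fun v _ _ => ?_
  -- the child `c`
  have hc : ∀ c, (f c - mu f (m + 1) c) ^ 2 ≤ zz f m c ^ 2 := by
    intro c
    have e := mu_succ f m c
    have hN := sz_succ m
    have hN' : 0 < sz m := lt_of_lt_of_le one_pos (one_le_sz m)
    have h2 : (sz (m + 1)) * (f c - mu f (m + 1) c) = (2 * sz m) * zz f m c := by
      unfold zz
      rw [mul_sub, e, hN]
      ring
    have h3 : (sz (m + 1)) ^ 2 * (f c - mu f (m + 1) c) ^ 2 = (2 * sz m) ^ 2 * zz f m c ^ 2 := by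
      rw [← mul_pow, h2, mul_pow]
    have h4 : (2 * sz m) ^ 2 ≤ (sz (m + 1)) ^ 2 := by
      rw [hN]; nlinarith
    have h5 : (0 : ℝ) < (sz (m + 1)) ^ 2 := by
      rw [hN]; positivity
    have h6 : (sz (m + 1)) ^ 2 * (f c - mu f (m + 1) c) ^ 2 ≤ (sz (m + 1)) ^ 2 * zz f m c ^ 2 := by
      rw [h3]
      exact mul_le_mul_of_nonneg_right h4 (sq_nonneg _)
    exact le_of_mul_le_mul_left h6 h5
  have key : ∀ A s y : ℝ, y = A + s → (1 - θ) * A ^ 2 - 1 / θ * s ^ 2 ≤ y ^ 2 := by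
    intro A s y hy
    subst hy
    have h2 : 1 / θ * s ^ 2 = (s ^ 2) / θ := by ring
    have h3 : 0 ≤ (θ * A + s) ^ 2 / θ := by positivity
    have h4 : (θ * A + s) ^ 2 / θ = θ * A ^ 2 + 2 * A * s + s ^ 2 / θ := by
      field_simp
      ring
    rw [h2]
    nlinarith [sq_nonneg s]
  have k0 := key ((f v - mu f (m + 1) (2 * v)) / 2) (f (2 * v) - (f v + mu f (m + 1) (2 * v)) / 2)
    (f (2 * v) - mu f (m + 1) (2 * v)) (by ring)
  have k1 := key ((f v - mu f (m + 1) (2 * v + 1)) / 2)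
    (f (2 * v + 1) - (f v + mu f (m + 1) (2 * v + 1)) / 2)
    (f (2 * v + 1) - mu f (m + 1) (2 * v + 1)) (by ring)
  have c0 := hc (2 * v)
  have c1 := hc (2 * v + 1)
  have e : (1 - θ) / 2 * (zz f (m + 1) v ^ 2 + bb f (m + 1) v ^ 2) - 1 / θ * ss f (m + 1) v =
      ((1 - θ) * ((f v - mu f (m + 1) (2 * v)) / 2) ^ 2 -
        1 / θ * (f (2 * v) - (f v + mu f (m + 1) (2 * v)) / 2) ^ 2) +
      ((1 - θ) * ((f v - mu f (m + 1) (2 * v + 1)) / 2) ^ 2 -
        1 / θ * (f (2 * v + 1) - (f v + mu f (m + 1) (2 * v + 1)) / 2) ^ 2) := by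
    unfold zz bb ss
    ring
  rw [e]
  linarith

end levels

end Pool.Agent.H86.BT
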