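import Mathlib
import Pool.Agent.H86.BT.Low

set_option autoImplicit false
open Finset

/-! # Squared edge lengths: variance of distinct integers, the lower bound -/

namespace Pool.Agent.H86.BT

lemma pair_sum {N : ℕ} (x : Fin N → ℝ) : ∑ i, ∑ j, (x i - x j) ^ 2 =
    2 * (N * ∑ i, x i ^ 2 - (∑ i, x i) ^ 2) := by
  have h : ∀ i, ∑ j, (x i - x j) ^ 2 = N * x i ^ 2 - 2 * x i * (∑ j, x j) + ∑ j, x j ^ 2 := by
    intro i
    have : ∀ j, (x i - x j) ^ 2 = x i ^ 2 - 2 * x i * x j + x j ^ 2 := fun j => by ring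
    simp only [this, sum_add_distrib, sum_sub_distrib, sum_const, card_univ, Fintype.card_fin,
      nsmul_eq_mul, ← mul_sum]
  simp only [h, sum_add_distrib, sum_sub_distrib, sum_const, card_univ, Fintype.card_fin,
    nsmul_eq_mul, ← mul_sum, ← sum_mul]
  ring

lemma sum_id (N : ℕ) : ∑ i : Fin N, ((i : ℕ) : ℝ) = N * (N - 1) / 2 := by
  rw [Fin.sum_univ_eq_sum_range (fun i => (i : ℝ)) N]
  induction N with
  | zero => simp
  | succ N ih => rw [sum_range_succ, ih]; push_cast; ring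

lemma sum_id2 (N : ℕ) : ∑ i : Fin N, ((i : ℕ) : ℝ) ^ 2 = (N - 1) * N * (2 * N - 1) / 6 := by
  rw [Fin.sum_univ_eq_sum_range (fun i => (i : ℝ) ^ 2) N]
  induction N with
  | zero => simp
  | succ N ih => rw [sum_range_succ, ih]; push_cast; ring

/-- **Variance of distinct integers.** -/
lemma dist_sq (A : Finset ℤ) : (A.card : ℝ) ^ 2 * ((A.card : ℝ) ^ 2 - 1) / 12 ≤
    A.card * ∑ a ∈ A, (a : ℝ) ^ 2 - (∑ a ∈ A, (a : ℝ)) ^ 2 := by
  set N := A.card with hN
  set e := A.orderEmbOfFin hN.symm with he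
  have hA : ∀ g : ℤ → ℝ, ∑ a ∈ A, g a = ∑ i, g (e i) := by
    intro g
    have : A = univ.map e.toEmbedding := by
      rw [he]
      exact (Finset.map_orderEmbOfFin_univ A hN.symm).symm
    conv_lhs => rw [this]
    rw [sum_map]
    rfl
  rw [hA, hA]
  have hd : ∀ n : ℕ, ∀ i j : Fin N, (j : ℕ) = i + n → (n : ℤ) ≤ e j - e i := by
    intro n
    induction n with
    | zero =>
      intro i j h
      have : i = j := Fin.ext (by omega)
      subst this
      simp
    | succ n ih =>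
      intro i j h
      have hj := j.2
      set j' : Fin N := ⟨i + n, by omega⟩ with hj'
      have h1 := ih i j' rfl
      have h2 : e j' < e j := e.strictMono (by
        rw [Fin.lt_def]
        simp only [hj']
        omega)
      push_cast
      linarith
  have hsq : ∀ i j : Fin N, (((i : ℕ) : ℝ) - (j : ℕ)) ^ 2 ≤ ((e i : ℝ) - e j) ^ 2 := by
    have key : ∀ i j : Fin N, i ≤ j → (((i : ℕ) : ℝ) - (j : ℕ)) ^ 2 ≤ ((e i : ℝ) - e j) ^ 2 := by
      intro i j hij
      rw [Fin.le_def] at hij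
      have h1 := hd (j - i) i j (by omega)
      have h2 : (((j : ℕ) - (i : ℕ) : ℕ) : ℝ) ≤ (e j : ℝ) - e i := by exact_mod_cast h1
      rw [Nat.cast_sub hij] at h2
      have h3 : (0 : ℝ) ≤ (j : ℕ) - (i : ℕ) := by
        have : ((i : ℕ) : ℝ) ≤ (j : ℕ) := by exact_mod_cast hij
        linarith
      nlinarith
    intro i j
    rcases le_total i j with h | h
    · exact key i j h
    · have := key j i h
      rw [sub_sq_comm, sub_sq_comm (e i : ℝ)]
      exact this
  have h1 := sum_le_sum fun i (_ : i ∈ (univ : Finset (Fin N))) =>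
    sum_le_sum fun j (_ : j ∈ (univ : Finset (Fin N))) => hsq i j
  rw [pair_sum, pair_sum (fun i => (e i : ℝ)), sum_id, sum_id2] at h1
  linarith

/-- the subtree of `v` with `m` levels below `v` -/
def Tr (m v : ℕ) : Finset ℕ := (range (m + 1)).biUnion fun j => Ico (2 ^ j * v) (2 ^ j * (v + 1))

lemma sm_eq (f : ℕ → ℝ) (m v : ℕ) :
    sm f m v = ∑ j ∈ range (m + 1), ∑ w ∈ Ico (2 ^ j * v) (2 ^ j * (v + 1)), f w := by
  induction m generalizing v with
  | zero => simp [sm]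
  | succ m ih =>
    rw [sm, ih, ih, sum_range_succ' _ (m + 1), add_assoc, ← sum_add_distrib, add_comm]
    congr 1
    · refine sum_congr rfl fun j _ => ?_
      rw [pow_succ, show 2 ^ j * (2 * v + 1 + 1) = 2 ^ j * 2 * (v + 1) by ring,
        show 2 ^ j * (2 * v) = 2 ^ j * 2 * v by ring]
      refine sum_Ico_consecutive f ?_ ?_
      · rw [mul_assoc]; exact Nat.mul_le_mul_left _ (by omega)
      · rw [mul_assoc]; exact Nat.mul_le_mul_left _ (by omega)
    · simp

lemma Tr_disj {v : ℕ} (hv : 1 ≤ v) {m : ℕ} :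
    Set.PairwiseDisjoint (range (m + 1) : Set ℕ) fun j => Ico (2 ^ j * v) (2 ^ j * (v + 1)) := by
  have key : ∀ i j : ℕ, i < j → Disjoint (Ico (2 ^ i * v) (2 ^ i * (v + 1)))
      (Ico (2 ^ j * v) (2 ^ j * (v + 1))) := by
    intro i j hij
    rw [Finset.disjoint_left]
    intro w h1 h2
    rw [mem_Ico] at h1 h2
    have h3 : 2 ^ i * (v + 1) ≤ 2 ^ (i + 1) * v := by
      rw [pow_succ, mul_assoc]
      exact Nat.mul_le_mul_left _ (by omega)
    have h4 : 2 ^ (i + 1) * v ≤ 2 ^ j * v :=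
      Nat.mul_le_mul_right _ (Nat.pow_le_pow_right (by norm_num) (by omega))
    omega
  intro i _ j _ hij
  rcases lt_or_gt_of_ne hij with h | h
  · exact key i j h
  · exact (key j i h).symm

lemma sm_Tr (f : ℕ → ℝ) (m : ℕ) {v : ℕ} (hv : 1 ≤ v) : sm f m v = ∑ w ∈ Tr m v, f w := by
  rw [sm_eq]
  unfold Tr
  rw [sum_biUnion (Tr_disj hv)]

lemma card_Tr (m : ℕ) {v : ℕ} (hv : 1 ≤ v) : ((Tr m v).card : ℝ) = sz m := by
  have h := sm_Tr (fun _ => 1) m hv
  rw [sum_const, nsmul_eq_mul, mul_one] at h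
  rw [← h]
  have key : ∀ m v, sm (fun _ => (1 : ℝ)) m v = sz m := by
    intro m
    induction m with
    | zero => intro v; rw [sz_zero]; rfl
    | succ m ih => intro v; rw [sm, ih, ih, sz_succ]; ring
  exact key m v

lemma mem_Tr {m v w : ℕ} {n d : ℕ} (hv : 2 ^ d ≤ v) (hv' : v < 2 ^ (d + 1)) (hm : d + m ≤ n)
    (h : w ∈ Tr m v) : 1 ≤ w ∧ w < 2 ^ (n + 1) := by
  unfold Tr at h
  rw [mem_biUnion] at h
  obtain ⟨j, hj, hw⟩ := h
  rw [mem_range] at hj
  rw [mem_Ico] at hw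
  have h1 : 1 ≤ 2 ^ j * v := by
    have := Nat.one_le_two_pow (n := d)
    have := Nat.one_le_two_pow (n := j)
    nlinarith
  have h2 : 2 ^ j * (v + 1) ≤ 2 ^ (n + 1) := by
    calc 2 ^ j * (v + 1) ≤ 2 ^ j * 2 ^ (d + 1) := Nat.mul_le_mul_left _ (by omega)
      _ = 2 ^ (j + (d + 1)) := by rw [← pow_add]
      _ ≤ 2 ^ (n + 1) := Nat.pow_le_pow_right (by norm_num) (by omega)
  omega

/-- **Variance of a subtree.** -/
lemma var_ge {n d v : ℕ} {F : ℕ → ℤ} (hF : Set.InjOn F (Ico 1 (2 ^ (n + 1))))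
    (hd : d ≤ n) (hv : 2 ^ d ≤ v) (hv' : v < 2 ^ (d + 1)) :
    (sz (n - d) ^ 2 - 1) / 12 ≤ var (fun w => (F w : ℝ)) (n - d) v := by
  have hv1 : 1 ≤ v := Nat.one_le_two_pow.trans hv
  set T := Tr (n - d) v with hT
  have hinj : Set.InjOn F T := fun a ha b hb hab => by
    refine hF ?_ ?_ hab
    · have := mem_Tr (n := n) hv hv' (by omega) ha
      rw [mem_coe, mem_Ico]; exact this
    · have := mem_Tr (n := n) hv hv' (by omega) hb
      rw [mem_coe, mem_Ico]; exact this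
  have h := dist_sq (T.image F)
  have hc : (T.image F).card = T.card := card_image_of_injOn hinj
  rw [hc, sum_image (fun a ha b hb hab => hinj ha hb hab),
    sum_image (fun a ha b hb hab => hinj ha hb hab), card_Tr _ hv1] at h
  unfold var mu
  rw [sm_Tr _ _ hv1, sm_Tr _ _ hv1]
  have hN : 1 ≤ sz (n - d) := one_le_sz _
  have hN0 : 0 < sz (n - d) := by linarith
  rw [← sub_nonneg]
  have e : (∑ w ∈ T, (F w : ℝ) ^ 2) / sz (n - d) - ((∑ w ∈ T, (F w : ℝ)) / sz (n - d)) ^ 2 -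
      (sz (n - d) ^ 2 - 1) / 12 = (sz (n - d) * ∑ w ∈ T, (F w : ℝ) ^ 2 - (∑ w ∈ T, (F w : ℝ)) ^ 2 -
        sz (n - d) ^ 2 * (sz (n - d) ^ 2 - 1) / 12) / sz (n - d) ^ 2 := by
    field_simp
  rw [e]
  apply div_nonneg _ (by positivity)
  linarith

end Pool.Agent.H86.BT
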