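import Mathlib
import Pool.Agent.H86.BT.Low2

set_option autoImplicit false
open Finset

/-! # Squared edge lengths: the lower bound `4 ^ k / 8 + c k ^ 2 2 ^ k` -/

namespace Pool.Agent.H86.BT

section low

variable {n : ℕ} {F : ℕ → ℤ} (hF : Set.InjOn F (Ico 1 (2 ^ (n + 1))))

/-- `2 ^ (k - d)` -/
noncomputable def aa (n d : ℕ) : ℝ := sz (n - d) + 1

lemma aa_eq {n d : ℕ} (hd : d ≤ n) : (2 : ℝ) ^ d * aa n d = 2 ^ (n + 1) := by
  unfold aa sz
  rw [sub_add_cancel, ← pow_add]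
  congr 1
  omega

lemma aa_pos (n d : ℕ) : 2 ≤ aa n d := by
  unfold aa
  linarith [one_le_sz (n - d)]

lemma aa_pow (n d : ℕ) (hd : d ≤ n) : aa n d = 2 ^ (n + 1 - d) := by
  unfold aa sz
  rw [sub_add_cancel]
  congr 1
  omega

/-- excess of the variances of the level `d` -/
noncomputable def Wl (F : ℕ → ℤ) (n d : ℕ) : ℝ :=
  Vl (fun w => (F w : ℝ)) n d - 2 ^ d * ((sz (n - d) ^ 2 - 1) / 12)

include hF in
lemma Wl_nonneg {d : ℕ} (hd : d ≤ n) : 0 ≤ Wl F n d := by
  unfold Wl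
  rw [← lev_const, sub_nonneg]
  exact lev_le fun v h1 h2 => var_ge hF hd h1 h2

lemma Wl_top (F : ℕ → ℤ) (n : ℕ) : Wl F n n = 0 := by
  unfold Wl Vl
  have : ∀ v, var (fun w => (F w : ℝ)) (n - n) v = 0 := by
    intro v; rw [Nat.sub_self, var_zero]
  rw [lev_congr (fun v _ _ => this v), lev_const, Nat.sub_self, sz_zero]
  ring

lemma sz_eq {d : ℕ} (hd : d < n) : sz (n - d) = 2 * sz (n - (d + 1)) + 1 := by
  rw [← sz_succ]
  congr 1
  omega

lemma three_le {d : ℕ} (hd : d < n) : 3 ≤ sz (n - d) := by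
  rw [sz_eq hd]; linarith [one_le_sz (n - (d + 1))]

include hF in
lemma level_W {d : ℕ} (hd : d < n) :
    2 ^ d * aa n d ^ 2 / 16 + Wl F n d - Wl F n (d + 1) / 2 ≤
      sz (n - d) / (sz (n - d) - 1) * Vl (fun w => (F w : ℝ)) n d -
        Vl (fun w => (F w : ℝ)) n (d + 1) / 2 := by
  have hW := Wl_nonneg hF hd.le
  have h3 := three_le hd
  have e := sz_eq hd
  unfold Wl at *
  unfold aa
  generalize Vl (fun w => (F w : ℝ)) n d = V at *
  generalize Vl (fun w => (F w : ℝ)) n (d + 1) = V' at *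
  rw [pow_succ 2 d]
  generalize (2 : ℝ) ^ d = p at *
  have hN' : sz (n - (d + 1)) = (sz (n - d) - 1) / 2 := by linarith
  rw [hN']
  generalize sz (n - d) = N at *
  have hN1 : 0 < N - 1 := by linarith
  have h4 : N / (N - 1) * V = V + V / (N - 1) := by field_simp; ring
  have h5 : p * ((N ^ 2 - 1) / 12) / (N - 1) ≤ V / (N - 1) :=
    div_le_div_of_nonneg_right (by linarith) hN1.le
  have h6 : p * ((N ^ 2 - 1) / 12) / (N - 1) = p * (N + 1) / 12 := by
    field_simp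
    ring
  rw [h4]
  nlinarith

/-- the excess of the energy -/
noncomputable def Xs (F : ℕ → ℤ) (n : ℕ) : ℝ :=
  En (fun w => (F w : ℝ)) n - (4 ^ (n + 1) / 8 - 2 ^ (n + 1) / 4)

lemma sum_aa (n : ℕ) : ∑ d ∈ range n, (2 : ℝ) ^ d * aa n d ^ 2 / 16 = 4 ^ (n + 1) / 8 - 2 ^ (n + 1) / 4 := by
  have key : ∀ j ≤ n, ∑ d ∈ range j, (2 : ℝ) ^ d * aa n d ^ 2 / 16 =
      4 ^ (n + 1) / 8 - 2 ^ (n + 1) * aa n j / 8 := by
    intro j hj
    induction j with
    | zero =>
      rw [sum_range_zero]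
      have h := aa_eq (n := n) (d := 0) (by omega)
      rw [pow_zero, one_mul] at h
      rw [h]
      have : (4 : ℝ) ^ (n + 1) = 2 ^ (n + 1) * 2 ^ (n + 1) := by
        rw [← mul_pow]; norm_num
      rw [this]
      ring
    | succ j ih =>
      rw [sum_range_succ, ih (by omega)]
      have h1 := aa_eq (n := n) (d := j) (by omega)
      have h2 : aa n j = 2 * aa n (j + 1) := by
        unfold aa
        rw [sz_eq (show j < n by omega)]
        ring
      have h3 : (2 : ℝ) ^ j * aa n j ^ 2 = 2 ^ (n + 1) * aa n j := by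
        rw [← h1]; ring
      rw [h3, h2]
      ring
  rw [key n le_rfl]
  unfold aa
  rw [Nat.sub_self, sz_zero]
  ring

include hF in
/-- **The excess.** -/
theorem Xs_ge : (∑ d ∈ range n, Wl F n d) / 2 + ∑ d ∈ range n,
      ((1 / sz (n - d) - 1 / sz (n - d) ^ 2) * Zl (fun w => (F w : ℝ)) n d +
        2 * Sl (fun w => (F w : ℝ)) n d) ≤ Xs F n := by
  unfold Xs
  rw [energy, ← sum_aa]
  have h0 := Yl_nonneg (fun w => (F w : ℝ)) n 0
  have h1 : ∑ d ∈ range n, (2 ^ d * aa n d ^ 2 / 16 + Wl F n d - Wl F n (d + 1) / 2) ≤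
      ∑ d ∈ range n, (sz (n - d) / (sz (n - d) - 1) * Vl (fun w => (F w : ℝ)) n d -
        Vl (fun w => (F w : ℝ)) n (d + 1) / 2) :=
    sum_le_sum fun d hd => level_W hF (mem_range.1 hd)
  have h2 : ∑ d ∈ range n, (2 ^ d * aa n d ^ 2 / 16 + Wl F n d - Wl F n (d + 1) / 2) =
      ∑ d ∈ range n, (2 : ℝ) ^ d * aa n d ^ 2 / 16 + (∑ d ∈ range n, Wl F n d) / 2 +
        (∑ d ∈ range n, (Wl F n d - Wl F n (d + 1))) / 2 := by
    rw [sum_div, sum_div, ← sum_add_distrib, ← sum_add_distrib]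
    exact sum_congr rfl fun d _ => by ring
  rw [sum_range_sub', Wl_top] at h2
  have h3 := Wl_nonneg hF (Nat.zero_le n)
  have h4 : ∑ d ∈ range n,
    (sz (n - d) / (sz (n - d) - 1) * Vl (fun w => (F w : ℝ)) n d -
        Vl (fun w => (F w : ℝ)) n (d + 1) / 2 +
      (1 / sz (n - d) - 1 / sz (n - d) ^ 2) * Zl (fun w => (F w : ℝ)) n d +
      2 * Sl (fun w => (F w : ℝ)) n d) =
    ∑ d ∈ range n, (sz (n - d) / (sz (n - d) - 1) * Vl (fun w => (F w : ℝ)) n d -
        Vl (fun w => (F w : ℝ)) n (d + 1) / 2) +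
    ∑ d ∈ range n, ((1 / sz (n - d) - 1 / sz (n - d) ^ 2) * Zl (fun w => (F w : ℝ)) n d +
      2 * Sl (fun w => (F w : ℝ)) n d) := by
    rw [← sum_add_distrib]
    exact sum_congr rfl fun d _ => by ring
  rw [h4]
  linarith

lemma coef_ge {d : ℕ} (hd : d < n) : 2 / 3 / sz (n - d) ≤ 1 / sz (n - d) - 1 / sz (n - d) ^ 2 := by
  have h3 := three_le hd
  have h0 : 0 < sz (n - d) := by linarith
  rw [← sub_nonneg]
  have e : 1 / sz (n - d) - 1 / sz (n - d) ^ 2 - 2 / 3 / sz (n - d) =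
      (sz (n - d) - 3) / (3 * sz (n - d) ^ 2) := by
    field_simp
    ring
  rw [e]
  apply div_nonneg (by linarith) (by positivity)

include hF in
lemma parts : (∀ d < n, Wl F n d ≤ 2 * Xs F n) ∧
    (∀ d < n, Sl (fun w => (F w : ℝ)) n d ≤ Xs F n / 2) ∧
    (∀ j ≤ n, ∑ d ∈ range j, 2 / 3 / sz (n - d) * Zl (fun w => (F w : ℝ)) n d ≤ Xs F n) := by
  have hX := Xs_ge hF
  have hW : ∀ d ∈ range n, 0 ≤ Wl F n d := fun d hd => Wl_nonneg hF (mem_range.1 hd).le
  have hc : ∀ d ∈ range n, 0 ≤ (1 / sz (n - d) - 1 / sz (n - d) ^ 2) * Zl (fun w => (F w : ℝ)) n d := by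
    intro d hd
    have h1 := coef_ge (mem_range.1 hd)
    have h2 := three_le (mem_range.1 hd)
    have h3 : 0 ≤ 2 / 3 / sz (n - d) := by positivity
    exact mul_nonneg (h3.trans h1) (Zl_nonneg _ _ _)
  have hS : ∀ d ∈ range n, 0 ≤ 2 * Sl (fun w => (F w : ℝ)) n d := fun d _ =>
    mul_nonneg (by norm_num) (Sl_nonneg _ _ _)
  rw [sum_add_distrib] at hX
  have s1 := sum_nonneg hW
  have s2 := sum_nonneg hc
  have s3 := sum_nonneg hS
  refine ⟨fun d hd => ?_, fun d hd => ?_, fun j hj => ?_⟩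
  · have := single_le_sum hW (mem_range.2 hd)
    linarith
  · have := single_le_sum hS (mem_range.2 hd)
    linarith
  · have h1 : ∑ d ∈ range j, 2 / 3 / sz (n - d) * Zl (fun w => (F w : ℝ)) n d ≤
        ∑ d ∈ range n, (1 / sz (n - d) - 1 / sz (n - d) ^ 2) * Zl (fun w => (F w : ℝ)) n d := by
      refine (sum_le_sum fun d hd => ?_).trans
        (sum_le_sum_of_subset_of_nonneg (range_subset_range.2 hj) fun d hd _ => hc d hd)
      exact mul_le_mul_of_nonneg_right (coef_ge (lt_of_lt_of_le (mem_range.1 hd) hj)) (Zl_nonneg _ _ _)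
    linarith

include hF in
lemma Xs_nonneg : 0 ≤ Xs F n := by
  have := (parts hF).2.2 0 (by omega)
  simpa using this

include hF in
/-- **First lower bound.** -/
theorem low0 : 4 ^ (n + 1) / 8 - 2 ^ (n + 1) / 4 ≤ En (fun w => (F w : ℝ)) n := by
  have := Xs_nonneg hF
  unfold Xs at this
  linarith

include hF in
lemma B_ge {d : ℕ} (hd : d < n) :
    2 ^ d * aa n d ^ 2 / 16 - 5 / 2 * Xs F n ≤ Bl (fun w => (F w : ℝ)) n d := by
  obtain ⟨p1, p2, p3⟩ := parts hF
  have hX := Xs_nonneg hF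
  rw [level_beta _ hd]
  have h1 := level_W hF hd
  have h2 := Wl_nonneg hF hd.le
  have h3 : Wl F n (d + 1) ≤ 2 * Xs F n := by
    rcases Nat.lt_or_ge (d + 1) n with h | h
    · exact p1 _ h
    · have : d + 1 = n := by omega
      rw [this, Wl_top]
      linarith
  have h4 : Zl (fun w => (F w : ℝ)) n d / sz (n - d) ≤ 3 / 2 * Xs F n := by
    have h5 := p3 (d + 1) (by omega)
    have h6 : ∀ i ∈ range (d + 1), 0 ≤ 2 / 3 / sz (n - i) * Zl (fun w => (F w : ℝ)) n i := by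
      intro i _
      have := one_le_sz (n - i)
      exact mul_nonneg (by positivity) (Zl_nonneg _ _ _)
    have h7 := single_le_sum h6 (mem_range.2 (Nat.lt_succ_self d))
    have h8 : 2 / 3 / sz (n - d) * Zl (fun w => (F w : ℝ)) n d =
        2 / 3 * (Zl (fun w => (F w : ℝ)) n d / sz (n - d)) := by ring
    rw [h8] at h7
    linarith
  linarith

lemma pow_big {j : ℕ} (hj : 32 ≤ j) : (2 * j) ^ 3 ≤ 2 ^ j := by
  induction j, hj using Nat.le_induction with
  | base => norm_num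
  | succ j hj ih =>
    have h1 : (2 * (j + 1)) ^ 3 ≤ 2 * (2 * j) ^ 3 := by
      have : (j + 1) ^ 3 ≤ 2 * j ^ 3 := by
        have h2 : 32 * j ^ 2 ≤ j ^ 3 := by
          rw [pow_succ j 2, mul_comm]; exact Nat.mul_le_mul_left _ hj
        nlinarith
      calc (2 * (j + 1)) ^ 3 = 8 * (j + 1) ^ 3 := by ring
        _ ≤ 8 * (2 * j ^ 3) := Nat.mul_le_mul_left _ this
        _ = 2 * (2 * j) ^ 3 := by ring
    rw [pow_succ 2 j]
    omega

include hF in
/-- growth of `z` -/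
lemma Z_ge (hn : 64 ≤ n + 1) (hX : Xs F n ≤ ((n : ℝ) + 1) ^ 2 * 2 ^ (n + 1) / 1000) :
    ∀ d, 2 * d ≤ n + 1 → 2 ^ d * aa n d ^ 2 * d / 64 ≤ Zl (fun w => (F w : ℝ)) n d := by
  intro d
  induction d with
  | zero =>
    intro _
    simpa using Zl_nonneg (fun w => (F w : ℝ)) n 0
  | succ d ih =>
    intro hd
    have h1 := ih (by omega)
    have hk0 : (64 : ℝ) ≤ (n : ℝ) + 1 := by exact_mod_cast hn
    have h2 := z_rec (fun w => (F w : ℝ)) (n := n) (d := d) (by omega) (θ := 1 / ((n : ℝ) + 1))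
      (by positivity)
    have h3 := B_ge hF (d := d) (by omega)
    have h4 := (parts hF).2.1 d (by omega)
    have e1 : aa n d = 2 * aa n (d + 1) := by
      unfold aa
      rw [sz_eq (show d < n by omega)]
      ring
    have hP : (2 : ℝ) ^ (d + 1) * aa n (d + 1) ^ 2 = 2 ^ d * aa n d ^ 2 / 2 := by
      rw [e1, pow_succ 2 d]; ring
    have hPk : (2 : ℝ) ^ d * aa n d ^ 2 = 2 ^ (n + 1) * aa n d := by
      rw [← aa_eq (n := n) (d := d) (by omega)]; ring
    have hbig : ((n : ℝ) + 1) ^ 3 ≤ aa n d := by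
      rw [aa_pow n d (by omega)]
      have h5 : n + 1 ≤ 2 * (n + 1 - d) := by omega
      have h6 := pow_big (j := n + 1 - d) (by omega)
      have h7 : (n + 1) ^ 3 ≤ 2 ^ (n + 1 - d) := (Nat.pow_le_pow_left h5 3).trans h6
      exact_mod_cast h7
    have hdk : (d : ℝ) ≤ ((n : ℝ) + 1) / 2 := by
      have : (2 * d : ℝ) ≤ (n : ℝ) + 1 := by exact_mod_cast (show 2 * d ≤ n + 1 by omega)
      linarith
    rw [hP]
    rw [hPk] at h1 h3 ⊢
    have hX0 := Xs_nonneg hF
    have hd0 : (0 : ℝ) ≤ d := by positivity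
    have hpow : (0 : ℝ) < 2 ^ (n + 1) := by positivity
    rw [one_div_one_div] at h2
    push_cast
    generalize Zl (fun w => (F w : ℝ)) n d = Z at *
    generalize Zl (fun w => (F w : ℝ)) n (d + 1) = Z' at *
    generalize Bl (fun w => (F w : ℝ)) n d = B at *
    generalize Sl (fun w => (F w : ℝ)) n d = S at *
    generalize Xs F n = X at *
    generalize aa n d = a at *
    generalize (2 : ℝ) ^ (n + 1) = q at *
    generalize (n : ℝ) + 1 = k at *
    generalize (d : ℝ) = x at *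
    have hk1 : 0 < k := by linarith
    have hth : 0 < 1 / k := by positivity
    have hth1 : 1 / k ≤ 1 / 64 := one_div_le_one_div_of_le (by norm_num) hk0
    have hxk : 1 / k * x ≤ 1 / 2 := by
      rw [one_div, inv_mul_le_iff₀ hk1]; linarith
    -- main part
    have m1 : (1 - 1 / k) / 2 * (q * a * x / 64 + (q * a / 16 - 5 / 2 * X)) - k * (X / 2) ≤ Z' := by
      have g1 : (1 - 1 / k) / 2 * (q * a * x / 64 + (q * a / 16 - 5 / 2 * X)) ≤
          (1 - 1 / k) / 2 * (Z + B) :=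
        mul_le_mul_of_nonneg_left (by linarith) (by linarith)
      have g2 : k * S ≤ k * (X / 2) := mul_le_mul_of_nonneg_left h4 hk1.le
      linarith
    refine le_trans ?_ m1
    have hqa : 0 < q * a := mul_pos hpow (lt_of_lt_of_le (by positivity) hbig)
    have hXb : 5 / 4 * X + k * (X / 2) ≤ q * a / 64 := by
      have g1 : (5 / 4 + k / 2) ≤ k := by linarith
      have g2 : 5 / 4 * X + k * (X / 2) ≤ k * X := by
        have := mul_le_mul_of_nonneg_right g1 hX0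
        linarith
      have g3 : k * X ≤ k * (k ^ 2 * q / 1000) := mul_le_mul_of_nonneg_left hX hk1.le
      have g4 : k * (k ^ 2 * q / 1000) = q * k ^ 3 / 1000 := by ring
      have g5 : q * k ^ 3 ≤ q * a := mul_le_mul_of_nonneg_left hbig hpow.le
      linarith
    have hmain : q * a / 2 * (x + 1) / 64 + q * a / 64 ≤
        (1 - 1 / k) / 2 * (q * a * x / 64 + q * a / 16) := by
      have e : (1 - 1 / k) / 2 * (q * a * x / 64 + q * a / 16) - q * a / 2 * (x + 1) / 64 - q * a / 64 =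
          q * a * ((1 - 1 / k) / 32 - 1 / 128 - 1 / 64 - 1 / k * x / 128) := by ring
      have : 0 ≤ q * a * ((1 - 1 / k) / 32 - 1 / 128 - 1 / 64 - 1 / k * x / 128) :=
        mul_nonneg hqa.le (by linarith)
      linarith
    have h9 : (1 - 1 / k) / 2 * (q * a * x / 64 + (q * a / 16 - 5 / 2 * X)) =
        (1 - 1 / k) / 2 * (q * a * x / 64 + q * a / 16) - (1 - 1 / k) * (5 / 4 * X) := by ring
    have h10 : (1 - 1 / k) * (5 / 4 * X) ≤ 5 / 4 * X := by
      have : (1 - 1 / k) * (5 / 4 * X) ≤ 1 * (5 / 4 * X) :=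
        mul_le_mul_of_nonneg_right (by linarith) (by linarith)
      linarith
    rw [h9]
    linarith

include hF in
/-- **The lower bound of the excess.** -/
theorem Xs_big (hn : 64 ≤ n + 1) : ((n : ℝ) + 1) ^ 2 * 2 ^ (n + 1) / 1000 ≤ Xs F n := by
  by_contra hc
  rw [not_le] at hc
  have hZ := Z_ge hF hn hc.le
  have h3 := (parts hF).2.2 ((n + 1) / 2 + 1) (by omega)
  have h4 : ∑ d ∈ range ((n + 1) / 2 + 1), (2 : ℝ) ^ (n + 1) / 96 * d ≤
      ∑ d ∈ range ((n + 1) / 2 + 1), 2 / 3 / sz (n - d) * Zl (fun w => (F w : ℝ)) n d := by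
    refine sum_le_sum fun d hd => ?_
    rw [mem_range] at hd
    have h5 := hZ d (by omega)
    have h6 := one_le_sz (n - d)
    have hPk : (2 : ℝ) ^ d * aa n d ^ 2 = 2 ^ (n + 1) * aa n d := by
      rw [← aa_eq (n := n) (d := d) (by omega)]; ring
    rw [hPk] at h5
    have h7 : 2 / 3 / sz (n - d) * (2 ^ (n + 1) * aa n d * d / 64) ≤
        2 / 3 / sz (n - d) * Zl (fun w => (F w : ℝ)) n d :=
      mul_le_mul_of_nonneg_left h5 (by positivity)
    refine le_trans ?_ h7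
    have h8 : sz (n - d) ≤ aa n d := by unfold aa; linarith
    have h9 : 2 / 3 / sz (n - d) * (2 ^ (n + 1) * aa n d * d / 64) =
        2 ^ (n + 1) / 96 * d * (aa n d / sz (n - d)) := by
      field_simp
      ring
    rw [h9]
    have h10 : 1 ≤ aa n d / sz (n - d) := by
      rw [le_div_iff₀ (by linarith)]; linarith
    exact le_mul_of_one_le_right (by positivity) h10
  rw [← mul_sum] at h4
  have h5 : ∀ q : ℕ, ∑ d ∈ range (q + 1), (d : ℝ) = q * (q + 1) / 2 := by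
    intro q
    induction q with
    | zero => simp
    | succ q ih => rw [sum_range_succ, ih]; push_cast; ring
  rw [h5] at h4
  have h6 : ((n : ℝ) + 1 - 1) / 2 ≤ (((n + 1) / 2 : ℕ) : ℝ) := by
    have : n + 1 ≤ 2 * ((n + 1) / 2) + 1 := by omega
    have : ((n : ℝ) + 1) ≤ 2 * (((n + 1) / 2 : ℕ) : ℝ) + 1 := by exact_mod_cast this
    linarith
  have hk0 : (64 : ℝ) ≤ (n : ℝ) + 1 := by exact_mod_cast hn
  generalize (((n + 1) / 2 : ℕ) : ℝ) = r at *
  have hpow : (0 : ℝ) < 2 ^ (n + 1) := by positivity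
  generalize Xs F n = X at *
  generalize (2 : ℝ) ^ (n + 1) = q at *
  generalize (n : ℝ) + 1 = k at *
  have h7 : (k ^ 2 - 1) / 4 ≤ r * (r + 1) := by nlinarith
  have h8 : q / 96 * ((k ^ 2 - 1) / 8) ≤ q / 96 * (r * (r + 1) / 2) :=
    mul_le_mul_of_nonneg_left (by linarith) (by positivity)
  have h9 : k ^ 2 * q / 1000 ≤ q / 96 * ((k ^ 2 - 1) / 8) := by
    have : 4096 ≤ k ^ 2 := by nlinarith
    nlinarith
  linarith

include hF in
/-- **The lower bound.** -/
theorem low (hn : 64 ≤ n + 1) :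
    4 ^ (n + 1) / 8 + ((n : ℝ) + 1) ^ 2 * 2 ^ (n + 1) / 2000 ≤ En (fun w => (F w : ℝ)) n := by
  have h := Xs_big hF hn
  unfold Xs at h
  have hk0 : (64 : ℝ) ≤ (n : ℝ) + 1 := by exact_mod_cast hn
  have hpow : (0 : ℝ) < 2 ^ (n + 1) := by positivity
  have h1 : (2 : ℝ) ^ (n + 1) / 4 ≤ ((n : ℝ) + 1) ^ 2 * 2 ^ (n + 1) / 2000 := by
    have : 500 ≤ ((n : ℝ) + 1) ^ 2 := by nlinarith
    nlinarith
  linarith

end low

end Pool.Agent.H86.BT
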