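import Mathlib
import Pool.Agent.H86.BT.Low

set_option autoImplicit false
open Finset

/-! # Squared edge lengths: the harmonic positions

`S v` = number of right turns minus number of left turns on the way from the root to `v`; `P v = 4 v + 2 - S v`;
the vertex `v` of the level `d` has the position `G v = 2 ^ (k - d) * (v + 1 / 2 - S v / 4)`, `k = n + 1`. -/

namespace Pool.Agent.H86.BT

/-- right turns minus left turns -/
def S (v : ℕ) : ℤ := if v ≤ 1 then 0 else S (v / 2) + (if v % 2 = 1 then 1 else -1)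
termination_by v
decreasing_by omega

lemma S_one : S 1 = 0 := by rw [S]; simp

lemma S_even {v : ℕ} (hv : 1 ≤ v) : S (2 * v) = S v - 1 := by
  rw [S, if_neg (by omega), show 2 * v / 2 = v by omega, if_neg (by omega)]
  ring

lemma S_odd {v : ℕ} (hv : 1 ≤ v) : S (2 * v + 1) = S v + 1 := by
  rw [S, if_neg (by omega), show (2 * v + 1) / 2 = v by omega, if_pos (by omega)]

/-- a vertex of the level `d` -/
def Lv (d v : ℕ) : Prop := 2 ^ d ≤ v ∧ v < 2 ^ (d + 1)

lemma Lv.one_le {d v : ℕ} (h : Lv d v) : 1 ≤ v := Nat.one_le_two_pow.trans h.1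

lemma Lv.half {d v : ℕ} (h : Lv (d + 1) v) : Lv d (v / 2) := by
  obtain ⟨h1, h2⟩ := h
  rw [pow_succ] at h1 h2
  constructor <;> omega

lemma Lv.even {d v : ℕ} (h : Lv d v) : Lv (d + 1) (2 * v) := by
  obtain ⟨h1, h2⟩ := h
  unfold Lv
  rw [pow_succ 2 (d + 1), pow_succ 2 d] at *
  constructor <;> omega

lemma Lv.odd {d v : ℕ} (h : Lv d v) : Lv (d + 1) (2 * v + 1) := by
  obtain ⟨h1, h2⟩ := h
  unfold Lv
  rw [pow_succ 2 (d + 1), pow_succ 2 d] at *
  constructor <;> omega

lemma Lv.cases {d v : ℕ} (h : Lv (d + 1) v) : ∃ u, Lv d u ∧ (v = 2 * u ∨ v = 2 * u + 1) :=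
  ⟨v / 2, h.half, by omega⟩

lemma Lv_zero {v : ℕ} (h : Lv 0 v) : v = 1 := by
  obtain ⟨h1, h2⟩ := h
  norm_num at h1 h2
  omega

lemma S_abs {d : ℕ} : ∀ {v : ℕ}, Lv d v → |S v| ≤ d := by
  induction d with
  | zero => intro v h; rw [Lv_zero h, S_one]; simp
  | succ d ih =>
    intro v h
    obtain ⟨u, hu, rfl | rfl⟩ := h.cases
    · rw [S_even hu.one_le]
      have := ih hu
      rw [abs_le] at *
      push_cast
      omega
    · rw [S_odd hu.one_le]
      have := ih hu
      rw [abs_le] at *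
      push_cast
      omega

lemma S_step {d : ℕ} : ∀ {v : ℕ}, Lv d v → Lv d (v + 1) → S (v + 1) ≤ S v + 2 := by
  induction d with
  | zero =>
    intro v h h'
    have := Lv_zero h
    have := Lv_zero h'
    omega
  | succ d ih =>
    intro v h h'
    obtain ⟨u, hu, rfl | rfl⟩ := h.cases
    · rw [S_even hu.one_le, S_odd hu.one_le]
      omega
    · have e : 2 * u + 1 + 1 = 2 * (u + 1) := by ring
      rw [e] at h' ⊢
      have hu' : Lv d (u + 1) := by
        have := h'.half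
        rwa [show 2 * (u + 1) / 2 = u + 1 by omega] at this
      rw [S_even hu'.one_le, S_odd hu.one_le]
      have := ih hu hu'
      omega

lemma S_two_pow (d : ℕ) : S (2 ^ d) = -d := by
  induction d with
  | zero => rw [pow_zero, S_one]; simp
  | succ d ih =>
    rw [pow_succ', S_even Nat.one_le_two_pow, ih]
    push_cast
    ring

lemma S_top (d : ℕ) : S (2 ^ (d + 1) - 1) = d := by
  induction d with
  | zero => norm_num [S_one]
  | succ d ih =>
    have h1 : 2 ^ (d + 1 + 1) - 1 = 2 * (2 ^ (d + 1) - 1) + 1 := by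
      have := Nat.one_le_two_pow (n := d + 1)
      rw [pow_succ 2 (d + 1)]
      omega
    have h2 : 1 ≤ 2 ^ (d + 1) - 1 := by
      have := Nat.one_le_two_pow (n := d)
      rw [pow_succ]
      omega
    rw [h1, S_odd h2, ih]
    push_cast
    ring

/-- four times the position of `v` in its level -/
def P (v : ℕ) : ℤ := 4 * v + 2 - S v

lemma P_mono {d : ℕ} {v w : ℕ} (hv : Lv d v) (hw : Lv d w) (h : v ≤ w) :
    P v + 2 * ((w : ℤ) - v) ≤ P w := by
  induction w, h using Nat.le_induction with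
  | base => simp
  | succ w hvw ih =>
    have hw' : Lv d w := ⟨hv.1.trans hvw, by have := hw.2; omega⟩
    have h1 := ih hw'
    have h2 := S_step hw' hw
    unfold P at *
    push_cast at *
    omega

lemma P_lo {d v : ℕ} (h : Lv d v) : 4 * 2 ^ d + 2 + d ≤ P v := by
  have h0 : Lv d (2 ^ d) := ⟨le_rfl, Nat.pow_lt_pow_right (by norm_num) (by omega)⟩
  have h1 := P_mono h0 h h.1
  have h2 : (2 ^ d : ℤ) ≤ v := by exact_mod_cast h.1
  unfold P at *
  rw [S_two_pow] at h1
  push_cast at h1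
  linarith

lemma P_hi {d v : ℕ} (h : Lv d v) : P v + 2 + d ≤ 4 * 2 ^ (d + 1) := by
  have e0 : 1 ≤ 2 ^ d := Nat.one_le_two_pow
  have h0 : Lv d (2 ^ (d + 1) - 1) := by
    constructor
    · rw [pow_succ]; omega
    · have := Nat.one_le_two_pow (n := d + 1); omega
  have h2 : v ≤ 2 ^ (d + 1) - 1 := by have := h.2; omega
  have h1 := P_mono h h0 h2
  have h3 : ((2 ^ (d + 1) - 1 : ℕ) : ℤ) = 2 ^ (d + 1) - 1 := by
    rw [Nat.cast_sub Nat.one_le_two_pow]; push_cast; ring
  have h4 : (v : ℤ) ≤ 2 ^ (d + 1) - 1 := by rw [← h3]; exact_mod_cast h2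
  unfold P at *
  rw [S_top, h3] at h1
  linarith

lemma P_even {v : ℕ} (hv : 1 ≤ v) : P (2 * v) = 2 * P v + S (2 * v) := by
  unfold P; rw [S_even hv]; push_cast; ring

lemma P_odd {v : ℕ} (hv : 1 ≤ v) : P (2 * v + 1) = 2 * P v + S (2 * v + 1) := by
  unfold P; rw [S_odd hv]; push_cast; ring

lemma P_child {d c : ℕ} (h : Lv (d + 1) c) : P c = 2 * P (c / 2) + S c := by
  obtain ⟨u, hu, rfl | rfl⟩ := h.cases
  · rw [show 2 * u / 2 = u by omega, P_even hu.one_le]
  · rw [show (2 * u + 1) / 2 = u by omega, P_odd hu.one_le]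

/-- four times the position of `v` -/
def g4 (n v : ℕ) : ℤ := 2 ^ (n + 1 - Nat.log 2 v) * P v

lemma g4_eq {n d v : ℕ} (h : Lv d v) : g4 n v = 2 ^ (n + 1 - d) * P v := by
  unfold g4
  rw [Nat.log_eq_of_pow_le_of_lt_pow h.1 h.2]

lemma g4_child {n d c : ℕ} (hd : d < n) (h : Lv (d + 1) c) :
    g4 n c - g4 n (c / 2) = 2 ^ (n - d) * S c := by
  rw [g4_eq h, g4_eq h.half, P_child h, show n + 1 - (d + 1) = n - d by omega,
    show n + 1 - d = n - d + 1 by omega, pow_succ]
  ring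

lemma g4_lo {n d v : ℕ} (hd : d ≤ n) (h : Lv d v) : 4 * 2 ^ (n + 1) ≤ g4 n v := by
  rw [g4_eq h]
  have h1 := P_lo h
  have h2 : (4 : ℤ) * 2 ^ d ≤ P v := by linarith [Int.natCast_nonneg d]
  calc (4 : ℤ) * 2 ^ (n + 1) = 2 ^ (n + 1 - d) * (4 * 2 ^ d) := by
        rw [mul_left_comm, ← pow_add, Nat.sub_add_cancel (by omega)]
    _ ≤ 2 ^ (n + 1 - d) * P v := mul_le_mul_of_nonneg_left h2 (by positivity)

lemma g4_hi {n d v : ℕ} (hd : d ≤ n) (h : Lv d v) : g4 n v < 4 * 2 ^ (n + 2) := by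
  rw [g4_eq h]
  have h1 := P_hi h
  have h2 : P v < 4 * 2 ^ (d + 1) := by linarith [Int.natCast_nonneg d]
  calc (2 : ℤ) ^ (n + 1 - d) * P v < 2 ^ (n + 1 - d) * (4 * 2 ^ (d + 1)) :=
        mul_lt_mul_of_pos_left h2 (by positivity)
    _ = 4 * 2 ^ (n + 2) := by
        rw [mul_left_comm, ← pow_add, show n + 1 - d + (d + 1) = n + 2 by omega]

/-- spacing of the positions of a level -/
lemma g4_mono {n d v w : ℕ} (hv : Lv d v) (hw : Lv d w) (h : v ≤ w) :
    g4 n v + 2 ^ (n + 1 - d) * (2 * ((w : ℤ) - v)) ≤ g4 n w := by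
  rw [g4_eq hv, g4_eq hw, ← mul_add]
  exact mul_le_mul_of_nonneg_left (P_mono hv hw h) (by positivity)

/-! ### The energy of the positions -/

lemma lev_S2 (d : ℕ) : lev d (fun v => (S v : ℝ) ^ 2) = 2 ^ d * d := by
  induction d with
  | zero => simp [lev, S_one]
  | succ d ih =>
    rw [lev_succ]
    have : ∀ v, 2 ^ d ≤ v → v < 2 ^ (d + 1) → (S (2 * v) : ℝ) ^ 2 + (S (2 * v + 1) : ℝ) ^ 2 =
        2 * (S v : ℝ) ^ 2 + 2 := by
      intro v h1 h2
      have hv : Lv d v := ⟨h1, h2⟩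
      rw [S_even hv.one_le, S_odd hv.one_le]
      push_cast
      ring
    rw [lev_congr this, lev_add, lev_mul, lev_const, ih, pow_succ]
    push_cast
    ring

/-- the sum over all edges, by the levels of the children -/
lemma sum_levels (n : ℕ) (H : ℕ → ℝ) :
    ∑ c ∈ Ico 2 (2 ^ (n + 1)), H c = ∑ d ∈ range n, lev (d + 1) H := by
  induction n with
  | zero => simp
  | succ n ih =>
    rw [sum_range_succ, ← ih]
    unfold lev
    rw [sum_Ico_consecutive]
    · rw [pow_succ]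
      have := Nat.one_le_two_pow (n := n)
      omega
    · exact Nat.pow_le_pow_right (by norm_num) (by omega)

/-- the position -/
noncomputable def G (n v : ℕ) : ℝ := g4 n v / 4

lemma G_child {n d c : ℕ} (hd : d < n) (h : Lv (d + 1) c) :
    G n c - G n (c / 2) = 2 ^ (n - d) * S c / 4 := by
  unfold G
  rw [← sub_div]
  congr 1
  exact_mod_cast g4_child hd h

lemma En_G (n : ℕ) : En (G n) n ≤ 4 ^ (n + 1) / 8 := by
  unfold En
  rw [sum_levels]
  have h1 : ∀ d ∈ range n, lev (d + 1) (fun c => (G n c - G n (c / 2)) ^ 2) =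
      2 ^ (n + 1) / 16 * (((d : ℝ) + 1) * 2 ^ (n - d)) := by
    intro d hd
    rw [mem_range] at hd
    have : ∀ c, 2 ^ (d + 1) ≤ c → c < 2 ^ (d + 1 + 1) → (G n c - G n (c / 2)) ^ 2 =
        (2 ^ (n - d)) ^ 2 / 16 * (S c : ℝ) ^ 2 := by
      intro c h1 h2
      rw [G_child hd ⟨h1, h2⟩]
      ring
    rw [lev_congr this, lev_mul, lev_S2]
    have e : (2 : ℝ) ^ (n + 1) = 2 ^ (n - d) * 2 ^ (d + 1) := by
      rw [← pow_add]; congr 1; omega
    rw [e]
    push_cast
    ring
  rw [sum_congr rfl h1, ← mul_sum]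
  have h2 : ∀ j ≤ n, ∑ d ∈ range j, ((d : ℝ) + 1) * 2 ^ (n - d) =
      4 * 2 ^ n - (2 * (j : ℝ) + 4) * 2 ^ (n - j) := by
    intro j hj
    induction j with
    | zero => simp
    | succ j ih =>
      rw [sum_range_succ, ih (by omega), show n - j = n - (j + 1) + 1 by omega, pow_succ]
      push_cast
      ring
  rw [h2 n le_rfl, Nat.sub_self, pow_zero, mul_one]
  have h3 : (4 : ℝ) ^ (n + 1) = 2 ^ (n + 1) * (2 * 2 ^ n) := by
    rw [← pow_succ', ← mul_pow]; norm_num
  rw [h3]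
  have h4 : (0 : ℝ) < 2 ^ (n + 1) := by positivity
  nlinarith [mul_nonneg h4.le (Nat.cast_nonneg (α := ℝ) n)]

/-- **Summation by parts**: the positions are harmonic at the inner vertices. -/
lemma cross (n : ℕ) (e : ℕ → ℝ) :
    ∑ c ∈ Ico 2 (2 ^ (n + 1)), (G n c - G n (c / 2)) * (e c - e (c / 2)) =
      lev n (fun v => S v * e v) / 2 := by
  rw [sum_levels]
  have key : ∀ j ≤ n, ∑ d ∈ range j, lev (d + 1) (fun c => (G n c - G n (c / 2)) * (e c - e (c / 2))) =
      2 ^ (n + 1 - j) / 4 * lev j (fun v => S v * e v) := by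
    intro j hj
    induction j with
    | zero => simp [lev, S_one]
    | succ j ih =>
      rw [sum_range_succ, ih (by omega)]
      have h1 : ∀ c, 2 ^ (j + 1) ≤ c → c < 2 ^ (j + 1 + 1) → (G n c - G n (c / 2)) * (e c - e (c / 2)) =
          2 ^ (n - j) / 4 * (S c * e c) - 2 ^ (n - j) / 4 * (S c * e (c / 2)) := by
        intro c h1 h2
        rw [G_child (by omega) ⟨h1, h2⟩]
        ring
      rw [lev_congr h1, lev_sub, lev_mul, lev_mul]
      have h2 : lev (j + 1) (fun c => S c * e (c / 2)) = 2 * lev j (fun v => S v * e v) := by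
        rw [lev_succ, ← lev_mul]
        refine lev_congr fun v h1 h2 => ?_
        have hv : Lv j v := ⟨h1, h2⟩
        rw [show 2 * v / 2 = v by omega, show (2 * v + 1) / 2 = v by omega, S_even hv.one_le,
          S_odd hv.one_le]
        push_cast
        ring
      rw [h2, show n + 1 - j = n - j + 1 by omega, show n + 1 - (j + 1) = n - j by omega, pow_succ]
      ring
  rw [key n le_rfl, show n + 1 - n = 1 by omega]
  ring

end Pool.Agent.H86.BT
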