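import Mathlib
import Pool.Agent.H86.BT.Up

set_option autoImplicit false
open Finset

/-! # Squared edge lengths: the rank of the position and its discrepancies -/

namespace Pool.Agent.H86.BT

/-- level as a set -/
def Le (d : ℕ) : Finset ℕ := Ico (2 ^ d) (2 ^ (d + 1))

lemma mem_Le {d v : ℕ} : v ∈ Le d ↔ Lv d v := by unfold Le Lv; rw [mem_Ico]

lemma card_Le (d : ℕ) : (Le d).card = 2 ^ d := by
  unfold Le
  rw [Nat.card_Ico, pow_succ]
  omega

/-- sorting key -/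
def K (n v : ℕ) : ℤ := g4 n v * 2 ^ (n + 2) + v

/-- `v` is a vertex -/
def Vt (n v : ℕ) : Prop := 1 ≤ v ∧ v < 2 ^ (n + 1)

lemma Lv.vt {n d v : ℕ} (hd : d ≤ n) (h : Lv d v) : Vt n v :=
  ⟨h.one_le, h.2.trans_le (Nat.pow_le_pow_right (by norm_num) (by omega))⟩

lemma Vt.lv {n v : ℕ} (h : Vt n v) : ∃ d ≤ n, Lv d v := by
  refine ⟨Nat.log 2 v, ?_, Nat.pow_log_le_self 2 (by have := h.1; omega),
    Nat.lt_pow_succ_log_self (by norm_num) v⟩
  have := Nat.log_lt_of_lt_pow (by have := h.1; omega) h.2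
  omega

lemma K_lt' {n v w : ℕ} (hv : Vt n v) (h : g4 n v < g4 n w) : K n v < K n w := by
  unfold K
  have h1 : (g4 n v + 1) * 2 ^ (n + 2) ≤ g4 n w * 2 ^ (n + 2) :=
    mul_le_mul_of_nonneg_right (by omega) (by positivity)
  have h2 : (v : ℤ) < 2 ^ (n + 1) := by exact_mod_cast hv.2
  have h3 : (2 : ℤ) ^ (n + 2) = 2 * 2 ^ (n + 1) := by rw [pow_succ]; ring
  have h4 : (0 : ℤ) < 2 ^ (n + 1) := by positivity
  have h5 : (0 : ℤ) ≤ w := Int.natCast_nonneg w
  rw [h3] at *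
  nlinarith

lemma g4_le_of_K {n v w : ℕ} (hw : Vt n w) (h : K n v ≤ K n w) : g4 n v ≤ g4 n w := by
  by_contra hc
  have := K_lt' hw (not_le.1 hc)
  omega

lemma K_inj {n v w : ℕ} (hv : Vt n v) (hw : Vt n w) (h : K n v = K n w) : v = w := by
  have h1 := g4_le_of_K hw h.le
  have h2 := g4_le_of_K hv h.ge
  have h3 : g4 n v = g4 n w := le_antisymm h1 h2
  unfold K at h
  rw [h3] at h
  omega

/-- number of vertices of the level `j` up to `v` -/
def rj (n j v : ℕ) : ℕ := ((Le j).filter fun w => K n w ≤ K n v).card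

/-- rank of `v` -/
def rk (n v : ℕ) : ℕ := ((Ico 1 (2 ^ (n + 1))).filter fun w => K n w ≤ K n v).card

lemma sum_all (n : ℕ) (H : ℕ → ℝ) :
    ∑ c ∈ Ico 1 (2 ^ (n + 1)), H c = ∑ d ∈ range (n + 1), lev d H := by
  rw [sum_range_succ', ← sum_levels]
  have h1 : lev 0 H = ∑ c ∈ Ico 1 2, H c := by unfold lev; norm_num
  have h3 : 2 ≤ 2 ^ (n + 1) := by
    calc 2 = 2 ^ 1 := rfl
      _ ≤ 2 ^ (n + 1) := Nat.pow_le_pow_right (by norm_num) (by omega)
  have h2 := sum_Ico_consecutive H (show 1 ≤ 2 by norm_num) h3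
  rw [h1]
  linarith

lemma rk_eq (n v : ℕ) : (rk n v : ℝ) = ∑ j ∈ range (n + 1), (rj n j v : ℝ) := by
  unfold rk rj
  rw [card_filter]
  push_cast
  rw [sum_all]
  refine sum_congr rfl fun j _ => ?_
  rw [card_filter]
  push_cast
  rfl

lemma rk_pos {n v : ℕ} (h : Vt n v) : 1 ≤ rk n v :=
  card_pos.2 ⟨v, mem_filter.2 ⟨mem_Ico.2 h, le_rfl⟩⟩

lemma rk_lt {n v : ℕ} : rk n v < 2 ^ (n + 1) := by
  unfold rk
  refine lt_of_le_of_lt (card_filter_le _ _) ?_
  rw [Nat.card_Ico]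
  have := Nat.one_le_two_pow (n := n + 1)
  omega

lemma rk_inj {n v w : ℕ} (hv : Vt n v) (hw : Vt n w) (h : rk n v = rk n w) : v = w := by
  have key : ∀ {v w : ℕ}, Vt n w → K n v < K n w → rk n v < rk n w := by
    intro v w hw h
    refine card_lt_card ⟨fun x hx => ?_, fun hs => ?_⟩
    · rw [mem_filter] at hx ⊢
      exact ⟨hx.1, hx.2.trans h.le⟩
    · have h1 := hs (mem_filter.2 ⟨mem_Ico.2 hw, le_rfl⟩)
      rw [mem_filter] at h1
      omega
  rcases lt_trichotomy (K n v) (K n w) with h1 | h1 | h1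
  · have := key hw h1; omega
  · exact K_inj hv hw h1
  · have := key hv h1; omega

/-- **Counting lemma**: positions of a level in an interval. -/
lemma count {n j : ℕ} {B : Finset ℕ} {a b : ℤ} (hB : ∀ w ∈ B, Lv j w)
    (h : ∀ w ∈ B, a ≤ g4 n w ∧ g4 n w ≤ b) (hab : a ≤ b) :
    (B.card : ℝ) ≤ (b - a) / (2 * 2 ^ (n + 1 - j)) + 1 := by
  have hab' : (0 : ℝ) ≤ (b : ℝ) - a := by
    have : (a : ℝ) ≤ b := by exact_mod_cast hab
    linarith
  rcases B.eq_empty_or_nonempty with rfl | hne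
  · rw [card_empty]; push_cast; positivity
  · set w1 := B.min' hne with hw1
    set w2 := B.max' hne with hw2
    have m1 : w1 ∈ B := min'_mem _ _
    have m2 : w2 ∈ B := max'_mem _ _
    have h12 : w1 ≤ w2 := min'_le _ _ m2
    have hsub : B ⊆ Icc w1 w2 := fun w hw => mem_Icc.2 ⟨min'_le _ _ hw, le_max' _ _ hw⟩
    have hc := card_le_card hsub
    rw [Nat.card_Icc] at hc
    have hc2 : (B.card : ℝ) ≤ (w2 : ℝ) - w1 + 1 := by
      have : B.card + w1 ≤ w2 + 1 := by omega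
      have : (B.card : ℝ) + w1 ≤ w2 + 1 := by exact_mod_cast this
      linarith
    have h1 := g4_mono (n := n) (hB w1 m1) (hB w2 m2) h12
    have h2 := (h w1 m1).1
    have h3 := (h w2 m2).2
    have h4 : (2 : ℤ) ^ (n + 1 - j) * (2 * ((w2 : ℤ) - w1)) ≤ b - a := by linarith
    have h5 : (2 : ℝ) ^ (n + 1 - j) * (2 * ((w2 : ℝ) - w1)) ≤ b - a := by exact_mod_cast h4
    have h6 : (w2 : ℝ) - w1 ≤ (b - a) / (2 * 2 ^ (n + 1 - j)) := by
      rw [le_div_iff₀ (by positivity)]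
      linarith
    linarith

/-- the count up to `v` against a reference vertex -/
lemma rj_ref {n j v w0 : ℕ} (hj : j ≤ n) (hv : Vt n v) (hw0 : Lv j w0) :
    |(rj n j v : ℝ) + 2 ^ j - w0 - 1| ≤ |(g4 n v : ℝ) - g4 n w0| / (2 * 2 ^ (n + 1 - j)) + 1 := by
  set q : ℕ := (|g4 n v - g4 n w0| / (2 * 2 ^ (n + 1 - j))).toNat with hq
  have hu : (0 : ℤ) < 2 * 2 ^ (n + 1 - j) := by positivity
  have hq0 : 0 ≤ |g4 n v - g4 n w0| / (2 * 2 ^ (n + 1 - j)) := Int.ediv_nonneg (abs_nonneg _) hu.le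
  have hq1 : (q : ℤ) = |g4 n v - g4 n w0| / (2 * 2 ^ (n + 1 - j)) := by rw [hq]; omega
  have hqr : (q : ℝ) ≤ |(g4 n v : ℝ) - g4 n w0| / (2 * 2 ^ (n + 1 - j)) := by
    rw [le_div_iff₀ (by positivity)]
    have : (q : ℤ) * (2 * 2 ^ (n + 1 - j)) ≤ |g4 n v - g4 n w0| := by
      rw [hq1]; exact Int.ediv_mul_le _ hu.ne'
    exact_mod_cast this
  have hle : ∀ m : ℤ, 2 ^ (n + 1 - j) * (2 * m) ≤ |g4 n v - g4 n w0| → m ≤ q := by
    intro m hm
    rw [hq1, Int.le_ediv_iff_mul_le hu]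
    linarith
  set A := (Le j).filter fun w => K n w ≤ K n v with hA
  have hA0 : (Ico (2 ^ j) (w0 + 1)).card = w0 + 1 - 2 ^ j := Nat.card_Ico _ _
  -- upper
  have h1 : A ⊆ Ico (2 ^ j) (w0 + 1) ∪ Ioc w0 (w0 + q) := by
    intro w hw
    rw [hA, mem_filter, mem_Le] at hw
    rw [mem_union, mem_Ico, mem_Ioc]
    by_cases h : w ≤ w0
    · left; exact ⟨hw.1.1, by omega⟩
    · right
      refine ⟨by omega, ?_⟩
      have h2 := g4_mono (n := n) hw0 hw.1 (by omega)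
      have h3 := g4_le_of_K hv hw.2
      have h4 := hle ((w : ℤ) - w0) (le_trans (by linarith) (le_abs_self _))
      omega
  have h2 := (card_le_card h1).trans (card_union_le _ _)
  rw [hA0, Nat.card_Ioc] at h2
  -- lower
  have h3 : Ico (2 ^ j) (w0 + 1) ⊆ A ∪ Icc (w0 - q) w0 := by
    intro w hw
    rw [mem_Ico] at hw
    have hwj : Lv j w := ⟨hw.1, by have := hw0.2; omega⟩
    rw [mem_union, mem_Icc]
    by_cases h : K n w ≤ K n v
    · left; rw [hA, mem_filter, mem_Le]; exact ⟨hwj, h⟩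
    · right
      refine ⟨?_, by omega⟩
      have h5 := g4_mono (n := n) hwj hw0 (by omega)
      have h6 := g4_le_of_K (hwj.vt hj) (not_le.1 h).le
      have h7 := hle ((w0 : ℤ) - w) (le_trans (by linarith) (neg_le_abs _))
      omega
  have h4 := (card_le_card h3).trans (card_union_le _ _)
  rw [hA0, Nat.card_Icc] at h4
  have hr : rj n j v = A.card := rfl
  have e1 : A.card + 2 ^ j ≤ w0 + 1 + q := by have := hw0.1; omega
  have e2 : w0 + 1 ≤ A.card + 2 ^ j + (q + 1) := by have := hw0.1; omega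
  have e1' : (A.card : ℝ) + 2 ^ j ≤ w0 + 1 + q := by exact_mod_cast e1
  have e2' : (w0 : ℝ) + 1 ≤ A.card + 2 ^ j + (q + 1) := by exact_mod_cast e2
  rw [hr, abs_le]
  constructor <;> linarith

/-! ### Discrepancies -/

/-- discrepancy of the level `j` at `v` -/
noncomputable def D (n j v : ℕ) : ℝ := rj n j v + 2 ^ j - G n v / 2 ^ (n + 1 - j)

/-- rank minus position -/
noncomputable def er (n v : ℕ) : ℝ := rk n v - (G n v - 2 ^ (n + 1))

lemma er_eq (n v : ℕ) : er n v = ∑ j ∈ range (n + 1), D n j v + (1 - G n v / 2 ^ (n + 1)) := by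
  unfold er D
  rw [sum_sub_distrib, sum_add_distrib, ← rk_eq]
  have h1 : ∑ j ∈ range (n + 1), (2 : ℝ) ^ j = 2 ^ (n + 1) - 1 := by
    have := geom_sum_eq (by norm_num : (2 : ℝ) ≠ 1) (n + 1)
    rw [this]; norm_num
  have h2 : ∑ j ∈ range (n + 1), G n v / 2 ^ (n + 1 - j) = G n v / 2 ^ (n + 1) * (2 ^ (n + 1) - 1) := by
    rw [← h1, mul_sum]
    refine sum_congr rfl fun j hj => ?_
    rw [mem_range] at hj
    have : (2 : ℝ) ^ (n + 1) = 2 ^ (n + 1 - j) * 2 ^ j := by rw [← pow_add]; congr 1; omega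
    rw [this]
    field_simp
  rw [h1, h2]
  have h3 : G n v / 2 ^ (n + 1) * (2 ^ (n + 1) - 1) = G n v - G n v / 2 ^ (n + 1) := by
    field_simp
  rw [h3]
  ring

lemma G_lo {n v : ℕ} (h : Vt n v) : 1 ≤ G n v / 2 ^ (n + 1) := by
  obtain ⟨d, hd, hv⟩ := h.lv
  have h1 := g4_lo hd hv
  have h2 : (4 : ℝ) * 2 ^ (n + 1) ≤ g4 n v := by exact_mod_cast h1
  rw [le_div_iff₀ (by positivity)]
  unfold G
  linarith

lemma G_hi {n v : ℕ} (h : Vt n v) : G n v / 2 ^ (n + 1) < 2 := by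
  obtain ⟨d, hd, hv⟩ := h.lv
  have h1 := g4_hi hd hv
  have h2 : (g4 n v : ℝ) < 4 * 2 ^ (n + 2) := by exact_mod_cast h1
  rw [div_lt_iff₀ (by positivity)]
  unfold G
  rw [pow_succ] at h2
  linarith

/-- position of a vertex of the level `j` in units of the level -/
lemma G_unit {n j w : ℕ} (h : Lv j w) : G n w / 2 ^ (n + 1 - j) = w + 1 / 2 - S w / 4 := by
  unfold G
  rw [g4_eq h]
  push_cast
  unfold P
  push_cast
  field_simp
  ring

/-- position in units of the level -/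
lemma D_ref {n j v w0 : ℕ} (hj : j ≤ n) (hv : Vt n v) (hw0 : Lv j w0) :
    |D n j v| ≤ 3 * |G n v / 2 ^ (n + 1 - j) - (w0 + 1 / 2 - S w0 / 4)| + |(S w0 : ℝ)| / 4 + 3 / 2 := by
  have h1 := rj_ref hj hv hw0
  have h2 : |(g4 n v : ℝ) - g4 n w0| / (2 * 2 ^ (n + 1 - j)) =
      2 * |G n v / 2 ^ (n + 1 - j) - (w0 + 1 / 2 - S w0 / 4)| := by
    rw [← G_unit hw0, ← sub_div, abs_div, abs_of_pos (show (0 : ℝ) < 2 ^ (n + 1 - j) by positivity)]
    unfold G
    rw [← sub_div, abs_div, abs_of_pos (show (0 : ℝ) < 4 by norm_num)]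
    field_simp
    ring
  rw [h2] at h1
  unfold D
  set x := G n v / 2 ^ (n + 1 - j) with hx
  have e : (rj n j v : ℝ) + 2 ^ j - x = ((rj n j v : ℝ) + 2 ^ j - w0 - 1) +
      (-(x - (w0 + 1 / 2 - S w0 / 4))) + (1 / 2 + S w0 / 4) := by ring
  rw [e]
  have h3 := abs_add_three ((rj n j v : ℝ) + 2 ^ j - w0 - 1) (-(x - (w0 + 1 / 2 - S w0 / 4)))
    (1 / 2 + S w0 / 4)
  have h4 : |(1 / 2 + S w0 / 4 : ℝ)| ≤ 1 / 2 + |(S w0 : ℝ)| / 4 := by
    refine (abs_add_le _ _).trans ?_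
    rw [abs_of_pos (show (0 : ℝ) < 1 / 2 by norm_num), abs_div,
      abs_of_pos (show (0 : ℝ) < 4 by norm_num)]
  rw [abs_neg] at h3
  linarith

/-- **Uniform bound.** -/
lemma D_sup {n j v : ℕ} (hj : j ≤ n) (hv : Vt n v) : |D n j v| ≤ j / 4 + 1 / 2 := by
  set x := G n v / 2 ^ (n + 1 - j) with hx
  have e0 : (2 : ℝ) ^ (n + 1) = 2 ^ j * 2 ^ (n + 1 - j) := by rw [← pow_add]; congr 1; omega
  have hx1 : (2 : ℝ) ^ j ≤ x := by
    have := G_lo hv
    rw [le_div_iff₀ (by positivity), e0] at this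
    rw [hx, le_div_iff₀ (by positivity)]
    linarith
  have hx2 : x < 2 * 2 ^ j := by
    have := G_hi hv
    rw [div_lt_iff₀ (by positivity), e0] at this
    rw [hx, div_lt_iff₀ (by positivity)]
    linarith
  have hSw : ∀ w, Lv j w → |(S w : ℝ)| ≤ j := by
    intro w hw
    have := S_abs hw
    exact_mod_cast this
  -- comparisons
  have c1 : ∀ w, Lv j w → K n w ≤ K n v → (w : ℝ) ≤ x - 1 / 2 + j / 4 := by
    intro w hw h
    have h1 := g4_le_of_K hv h
    have h2 : (g4 n w : ℝ) ≤ g4 n v := by exact_mod_cast h1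
    have h3 : G n w / 2 ^ (n + 1 - j) ≤ x := by
      rw [hx]
      apply div_le_div_of_nonneg_right _ (by positivity)
      unfold G; linarith
    rw [G_unit hw] at h3
    have := (abs_le.1 (hSw w hw)).2
    linarith
  have c2 : ∀ w, Lv j w → (w : ℝ) < x - 1 / 2 - j / 4 → K n w ≤ K n v := by
    intro w hw h
    have h3 : G n w / 2 ^ (n + 1 - j) < x := by
      rw [G_unit hw]
      have := (abs_le.1 (hSw w hw)).1
      linarith
    rw [hx, div_lt_div_iff_of_pos_right (by positivity)] at h3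
    have h4 : (g4 n w : ℝ) < g4 n v := by unfold G at h3; linarith
    exact (K_lt' (hw.vt hj) (by exact_mod_cast h4)).le
  have hj0 : (0 : ℝ) ≤ j := Nat.cast_nonneg j
  set A := (Le j).filter fun w => K n w ≤ K n v with hA
  have hr : rj n j v = A.card := rfl
  -- upper
  have up : (A.card : ℝ) ≤ x - 1 / 2 + j / 4 + 1 - 2 ^ j := by
    set y := x - 1 / 2 + j / 4 with hy
    have hy0 : 0 ≤ y := by
      have : (1 : ℝ) ≤ 2 ^ j := one_le_pow₀ (by norm_num)
      linarith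
    have hsub : A ⊆ Icc (2 ^ j) ⌊y⌋₊ := by
      intro w hw
      rw [hA, mem_filter, mem_Le] at hw
      rw [mem_Icc]
      exact ⟨hw.1.1, Nat.le_floor (c1 w hw.1 hw.2)⟩
    have hc := card_le_card hsub
    rw [Nat.card_Icc] at hc
    have hf := Nat.floor_le hy0
    by_cases h : 2 ^ j ≤ ⌊y⌋₊ + 1
    · have : A.card + 2 ^ j ≤ ⌊y⌋₊ + 1 := by omega
      have : (A.card : ℝ) + 2 ^ j ≤ ⌊y⌋₊ + 1 := by exact_mod_cast this
      linarith
    · have : A.card = 0 := by omega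
      rw [this]
      push_cast
      linarith
  have lo : x - 1 / 2 - j / 4 - 2 ^ j ≤ (A.card : ℝ) := by
    set y := x - 1 / 2 - j / 4 with hy
    have hsub : Ico (2 ^ j) ⌈y⌉₊ ⊆ A := by
      intro w hw
      rw [mem_Ico] at hw
      have h1 : (w : ℝ) < y := Nat.lt_ceil.1 hw.2
      have h2 : Lv j w := by
        refine ⟨hw.1, ?_⟩
        have h3 : (w : ℝ) < 2 * 2 ^ j := by linarith
        have h4 : (w : ℝ) < ((2 ^ (j + 1) : ℕ) : ℝ) := by push_cast; rw [pow_succ]; linarith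
        exact_mod_cast h4
      rw [hA, mem_filter, mem_Le]
      exact ⟨h2, c2 w h2 h1⟩
    have hc := card_le_card hsub
    rw [Nat.card_Ico] at hc
    have h1 : ⌈y⌉₊ ≤ A.card + 2 ^ j := by omega
    have h2 : (⌈y⌉₊ : ℝ) ≤ A.card + 2 ^ j := by exact_mod_cast h1
    have h3 := Nat.le_ceil y
    linarith
  unfold D
  rw [hr, ← hx, abs_le]
  constructor <;> linarith

end Pool.Agent.H86.BT
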