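import Mathlib
import Pool.Agent.H86.BT.Up2

set_option autoImplicit false
open Finset

/-! # Squared edge lengths: the first order term -/

namespace Pool.Agent.H86.BT

lemma Lv_anc {d : ℕ} (m : ℕ) : ∀ {v : ℕ}, Lv (d + m) v → Lv d (v / 2 ^ m) := by
  induction m with
  | zero => intro v h; simpa using h
  | succ m ih =>
    intro v h
    have h1 : Lv (d + m) (v / 2) := Lv.half (by rw [← add_assoc] at h; exact h)
    have h2 := ih h1
    rwa [Nat.div_div_eq_div_mul, ← pow_succ'] at h2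

lemma S_anc {d : ℕ} (m : ℕ) : ∀ {v : ℕ}, Lv (d + m) v → |S v - S (v / 2 ^ m)| ≤ m := by
  induction m with
  | zero => intro v _; simp
  | succ m ih =>
    intro v h
    rw [← add_assoc] at h
    have h1 := ih h.half
    rw [Nat.div_div_eq_div_mul, ← pow_succ'] at h1
    have h2 : |S v - S (v / 2)| ≤ 1 := by
      obtain ⟨u, hu, rfl | rfl⟩ := h.cases
      · rw [show 2 * u / 2 = u by omega, S_even hu.one_le]
        norm_num
      · rw [show (2 * u + 1) / 2 = u by omega, S_odd hu.one_le]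
        norm_num
    have h3 := abs_add_le (S v - S (v / 2)) (S (v / 2) - S (v / 2 ^ (m + 1)))
    rw [sub_add_sub_cancel] at h3
    push_cast
    linarith

lemma lev_anc (F : ℕ → ℝ) (d m : ℕ) : lev (d + m) (fun v => F (v / 2 ^ m)) = 2 ^ m * lev d F := by
  induction m with
  | zero => simp
  | succ m ih =>
    rw [← add_assoc, lev_succ]
    have h : ∀ v, F (2 * v / 2 ^ (m + 1)) + F ((2 * v + 1) / 2 ^ (m + 1)) = 2 * F (v / 2 ^ m) := by
      intro v
      rw [pow_succ', ← Nat.div_div_eq_div_mul, ← Nat.div_div_eq_div_mul,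
        show 2 * v / 2 = v by omega, show (2 * v + 1) / 2 = v by omega]
      ring
    rw [lev_congr (fun v _ _ => h v), lev_mul, ih, pow_succ]
    ring

lemma pow_half (m : ℕ) : (m : ℝ) / 2 ^ m ≤ 1 / 2 := by
  rw [div_le_iff₀ (by positivity)]
  induction m with
  | zero => simp
  | succ m ih =>
    rcases Nat.eq_zero_or_pos m with rfl | hm
    · norm_num
    · have h1 : (1 : ℝ) ≤ m := by exact_mod_cast hm
      rw [pow_succ]
      push_cast
      linarith

/-- discrepancy at a leaf -/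
lemma D_leaf {n j v : ℕ} (hj : j ≤ n) (hv : Lv n v) :
    |D n j v| ≤ 4 + 2 * |(S (v / 2 ^ (n - j)) : ℝ)| := by
  set m := n - j with hm
  set w0 := v / 2 ^ m with hw0
  have hv' : Lv (j + m) v := by rw [hm, Nat.add_sub_cancel' hj]; exact hv
  have hw : Lv j w0 := Lv_anc m hv'
  have h1 := D_ref hj (hv.vt le_rfl) hw
  have h2 := S_anc m hv'
  rw [← hw0] at h2
  have h2' : |(S v : ℝ) - S w0| ≤ m := by exact_mod_cast h2
  have h3 : G n v / 2 ^ (n + 1 - j) = (v + 1 / 2 - S v / 4) / 2 ^ m := by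
    have e := G_unit (n := n) hv
    rw [show n + 1 - n = 1 by omega, pow_one] at e
    rw [← e, show n + 1 - j = m + 1 by omega, pow_succ]
    field_simp
  have hp : (0 : ℝ) < 2 ^ m := by positivity
  have hp1 : (1 : ℝ) ≤ 2 ^ m := one_le_pow₀ (by norm_num)
  -- position of the leaf inside the cell of the ancestor
  have h4 : |((v : ℝ) + 1 / 2) / 2 ^ m - (w0 + 1 / 2)| ≤ 1 / 2 := by
    have a1 : w0 * 2 ^ m ≤ v := Nat.div_mul_le_self v (2 ^ m)
    have a2 : v < (w0 + 1) * 2 ^ m := by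
      have := Nat.lt_div_mul_add (a := v) (b := 2 ^ m) (by positivity)
      rw [← hw0] at this
      rw [add_mul, one_mul]
      exact this
    have a1' : (w0 : ℝ) * 2 ^ m ≤ v := by exact_mod_cast a1
    have a2' : (v : ℝ) + 1 ≤ (w0 + 1) * 2 ^ m := by exact_mod_cast a2
    rw [abs_le]
    constructor
    · rw [neg_le_sub_iff_le_add, ← sub_le_iff_le_add, le_div_iff₀ hp]
      nlinarith
    · rw [sub_le_iff_le_add, div_le_iff₀ hp]
      nlinarith
  have h5 : |(S v : ℝ) / 4 / 2 ^ m| ≤ |(S w0 : ℝ)| / 4 + 1 / 8 := by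
    rw [abs_div, abs_div, abs_of_pos hp, abs_of_pos (show (0 : ℝ) < 4 by norm_num)]
    have b1 : |(S v : ℝ)| ≤ |(S w0 : ℝ)| + m := by
      have := abs_add_le ((S v : ℝ) - S w0) (S w0)
      rw [sub_add_cancel] at this
      linarith
    have b2 : |(S v : ℝ)| / 4 / 2 ^ m ≤ (|(S w0 : ℝ)| + m) / 4 / 2 ^ m := by
      apply div_le_div_of_nonneg_right _ hp.le
      linarith
    have b3 : (|(S w0 : ℝ)| + m) / 4 / 2 ^ m = |(S w0 : ℝ)| / 2 ^ m / 4 + m / 2 ^ m / 4 := by ring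
    have b4 : |(S w0 : ℝ)| / 2 ^ m ≤ |(S w0 : ℝ)| := div_le_self (abs_nonneg _) hp1
    have b5 := pow_half m
    linarith
  have h6 : |G n v / 2 ^ (n + 1 - j) - (w0 + 1 / 2 - S w0 / 4)| ≤ 5 / 8 + |(S w0 : ℝ)| / 2 := by
    rw [h3]
    have e : ((v : ℝ) + 1 / 2 - S v / 4) / 2 ^ m - (w0 + 1 / 2 - S w0 / 4) =
        (((v : ℝ) + 1 / 2) / 2 ^ m - (w0 + 1 / 2)) + (-((S v : ℝ) / 4 / 2 ^ m)) + S w0 / 4 := by ring
    rw [e]
    have c1 := abs_add_three (((v : ℝ) + 1 / 2) / 2 ^ m - (w0 + 1 / 2)) (-((S v : ℝ) / 4 / 2 ^ m))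
      ((S w0 : ℝ) / 4)
    rw [abs_neg, abs_div (S w0 : ℝ), abs_of_pos (show (0 : ℝ) < 4 by norm_num)] at c1
    linarith
  have := abs_nonneg (S w0 : ℝ)
  linarith

lemma er_leaf {n v : ℕ} (hv : Lv n v) :
    |er n v| ≤ ∑ j ∈ range (n + 1), (4 + 2 * |(S (v / 2 ^ (n - j)) : ℝ)|) + 1 := by
  rw [er_eq]
  refine (abs_add_le _ _).trans (add_le_add ((abs_sum_le_sum_abs _ _).trans
    (sum_le_sum fun j hj => D_leaf (by rw [mem_range] at hj; omega) hv)) ?_)
  have h1 := G_lo (hv.vt le_rfl)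
  have h2 := G_hi (hv.vt le_rfl)
  rw [abs_le]
  constructor <;> linarith

/-- **The first order term.** -/
theorem cross_le (n : ℕ) : lev n (fun v => S v * er n v) ≤ 2 ^ n * (4 * ((n : ℝ) + 1) ^ 2) := by
  have h1 : lev n (fun v => S v * er n v) ≤ lev n (fun v =>
      ∑ j ∈ range (n + 1), (2 + 3 * (S v : ℝ) ^ 2 + (S (v / 2 ^ (n - j)) : ℝ) ^ 2) +
        (1 + (S v : ℝ) ^ 2) / 2) := by
    refine lev_le fun v h1 h2 => ?_
    have h3 := er_leaf (n := n) ⟨h1, h2⟩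
    have h4 : (S v : ℝ) * er n v ≤ |(S v : ℝ)| * |er n v| := by
      rw [← abs_mul]; exact le_abs_self _
    have h5 := mul_le_mul_of_nonneg_left h3 (abs_nonneg (S v : ℝ))
    rw [mul_add, mul_sum, mul_one] at h5
    refine h4.trans (h5.trans (add_le_add (sum_le_sum fun j _ => ?_) ?_))
    · have e1 : (S v : ℝ) ^ 2 = |(S v : ℝ)| ^ 2 := (sq_abs _).symm
      have e2 : (S (v / 2 ^ (n - j)) : ℝ) ^ 2 = |(S (v / 2 ^ (n - j)) : ℝ)| ^ 2 := (sq_abs _).symm
      rw [e1, e2]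
      nlinarith [sq_nonneg (|(S v : ℝ)| - |(S (v / 2 ^ (n - j)) : ℝ)|), sq_nonneg (|(S v : ℝ)| - 1)]
    · have e1 : (S v : ℝ) ^ 2 = |(S v : ℝ)| ^ 2 := (sq_abs _).symm
      rw [e1]
      nlinarith [sq_nonneg (|(S v : ℝ)| - 1)]
  refine h1.trans ?_
  have h2 : lev n (fun v =>
      ∑ j ∈ range (n + 1), (2 + 3 * (S v : ℝ) ^ 2 + (S (v / 2 ^ (n - j)) : ℝ) ^ 2) +
        (1 + (S v : ℝ) ^ 2) / 2) =
      ∑ j ∈ range (n + 1), lev n (fun v => 2 + 3 * (S v : ℝ) ^ 2 + (S (v / 2 ^ (n - j)) : ℝ) ^ 2) +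
        lev n (fun v => 1 / 2 + 1 / 2 * (S v : ℝ) ^ 2) := by
    unfold lev
    rw [sum_add_distrib, sum_comm]
    congr 1
    exact sum_congr rfl fun v _ => by ring
  rw [h2]
  have h3 : ∀ j ∈ range (n + 1),
      lev n (fun v => 2 + 3 * (S v : ℝ) ^ 2 + (S (v / 2 ^ (n - j)) : ℝ) ^ 2) ≤
        2 ^ n * (2 + 4 * n) := by
    intro j hj
    rw [mem_range] at hj
    rw [lev_add, lev_add, lev_mul, lev_S2, lev_const]
    have h4 : lev n (fun v => (S (v / 2 ^ (n - j)) : ℝ) ^ 2) = 2 ^ n * j := by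
      have := lev_anc (fun v => (S v : ℝ) ^ 2) j (n - j)
      rw [Nat.add_sub_cancel' (by omega), lev_S2] at this
      rw [this, ← mul_assoc, ← pow_add, Nat.sub_add_cancel (by omega)]
    rw [h4]
    have h5 : (j : ℝ) ≤ n := by exact_mod_cast (by omega : j ≤ n)
    have h6 : (0 : ℝ) < 2 ^ n := by positivity
    nlinarith
  have h4 := sum_le_sum h3
  rw [sum_const, card_range, nsmul_eq_mul] at h4
  rw [lev_add, lev_mul, lev_const, lev_S2]
  push_cast at h4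
  have h6 : (0 : ℝ) < 2 ^ n := by positivity
  have h7 : (0 : ℝ) ≤ n := Nat.cast_nonneg n
  nlinarith [mul_nonneg h6.le h7]

end Pool.Agent.H86.BT
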