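import Mathlib
import Pool.Agent.H86.BT.Up3

set_option autoImplicit false
open Finset

/-! # Squared edge lengths: the energy of the error, the upper bound -/

namespace Pool.Agent.H86.BT

/-- difference of the discrepancies along the edge above `c` -/
noncomputable def dD (n j c : ℕ) : ℝ := D n j c - D n j (c / 2)

/-- vertices of the level `j` between `c` and its parent -/
def nbs (n j c : ℕ) : Finset ℕ := (Le j).filter fun w => ¬ (K n w ≤ K n c ↔ K n w ≤ K n (c / 2))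

lemma Lv.S_le {d c n : ℕ} (hd : d < n) (h : Lv (d + 1) c) : |(S c : ℝ)| ≤ n := by
  have h1 := S_abs h
  have h2 : |S c| ≤ (n : ℤ) := h1.trans (by exact_mod_cast hd)
  exact_mod_cast h2

lemma dD_sup {n j d c : ℕ} (hj : j ≤ n) (hd : d < n) (h : Lv (d + 1) c) : |dD n j c| ≤ n / 2 + 1 := by
  unfold dD
  have h1 := D_sup hj (h.vt (n := n) (by omega))
  have h2 := D_sup hj (h.half.vt (n := n) (by omega))
  have h3 : (j : ℝ) ≤ n := by exact_mod_cast hj
  have := abs_sub (D n j c) (D n j (c / 2))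
  linarith

lemma rj_diff (n j c : ℕ) : |(rj n j c : ℝ) - rj n j (c / 2)| ≤ (nbs n j c).card := by
  have h1 : (Le j).filter (fun w => K n w ≤ K n c) ⊆
      (Le j).filter (fun w => K n w ≤ K n (c / 2)) ∪ nbs n j c := by
    intro w hw
    unfold nbs
    rw [mem_union, mem_filter, mem_filter]
    rw [mem_filter] at hw
    tauto
  have h2 : (Le j).filter (fun w => K n w ≤ K n (c / 2)) ⊆
      (Le j).filter (fun w => K n w ≤ K n c) ∪ nbs n j c := by
    intro w hw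
    unfold nbs
    rw [mem_union, mem_filter, mem_filter]
    rw [mem_filter] at hw
    tauto
  have h3 := (card_le_card h1).trans (card_union_le _ _)
  have h4 := (card_le_card h2).trans (card_union_le _ _)
  have h3' : (rj n j c : ℝ) ≤ rj n j (c / 2) + (nbs n j c).card := by unfold rj; exact_mod_cast h3
  have h4' : (rj n j (c / 2) : ℝ) ≤ rj n j c + (nbs n j c).card := by unfold rj; exact_mod_cast h4
  rw [abs_le]
  constructor <;> linarith

/-- the position of a vertex between `c` and its parent -/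
lemma between {n d c w : ℕ} (hd : d < n) (h : Lv (d + 1) c) (hw : Vt n w)
    (hb : ¬ (K n w ≤ K n c ↔ K n w ≤ K n (c / 2))) :
    min (g4 n c) (g4 n (c / 2)) ≤ g4 n w ∧ g4 n w ≤ max (g4 n c) (g4 n (c / 2)) := by
  have hc : Vt n c := h.vt (by omega)
  have hv : Vt n (c / 2) := h.half.vt (by omega)
  by_cases h1 : K n w ≤ K n c
  · have h2 : ¬ K n w ≤ K n (c / 2) := fun h2 => hb ⟨fun _ => h2, fun _ => h1⟩
    have a1 := g4_le_of_K hc h1
    have a2 := g4_le_of_K hw (not_le.1 h2).le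
    exact ⟨(min_le_right _ _).trans a2, a1.trans (le_max_left _ _)⟩
  · have h2 : K n w ≤ K n (c / 2) := by
      by_contra h2
      exact hb ⟨fun h => absurd h h1, fun h => absurd h h2⟩
    have a1 := g4_le_of_K hv h2
    have a2 := g4_le_of_K hw (not_le.1 h1).le
    exact ⟨(min_le_left _ _).trans a2, a1.trans (le_max_right _ _)⟩

lemma max_sub_min' (a b : ℤ) : max a b - min a b = |a - b| := by
  rcases le_total a b with h | h
  · rw [max_eq_right h, min_eq_left h, abs_of_nonpos (by omega)]; ring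
  · rw [max_eq_left h, min_eq_right h, abs_of_nonneg (by omega)]

lemma nbs_le {n j d c : ℕ} (hjd : j ≤ d) (hd : d < n) (h : Lv (d + 1) c) :
    ((nbs n j c).card : ℝ) ≤ n / (4 * 2 ^ (d - j)) + 1 := by
  have h1 := count (n := n) (j := j) (B := nbs n j c) (a := min (g4 n c) (g4 n (c / 2)))
    (b := max (g4 n c) (g4 n (c / 2)))
    (fun w hw => mem_Le.1 (mem_filter.1 hw).1)
    (fun w hw => between hd h ((mem_Le.1 (mem_filter.1 hw).1).vt (by omega)) (mem_filter.1 hw).2)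
    (min_le_max)
  refine h1.trans (add_le_add ?_ le_rfl)
  have h2 : ((max (g4 n c) (g4 n (c / 2)) : ℤ) : ℝ) - ((min (g4 n c) (g4 n (c / 2)) : ℤ) : ℝ) =
      2 ^ (n - d) * |(S c : ℝ)| := by
    have e := max_sub_min' (g4 n c) (g4 n (c / 2))
    rw [g4_child hd h, abs_mul, abs_of_pos (show (0 : ℤ) < 2 ^ (n - d) by positivity)] at e
    exact_mod_cast e
  rw [h2]
  have e : (2 : ℝ) ^ (n + 1 - j) = 2 * (2 ^ (n - d) * 2 ^ (d - j)) := by
    rw [← pow_add, ← pow_succ']; congr 1; omega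
  rw [e, div_le_div_iff₀ (by positivity) (by positivity)]
  have h3 := h.S_le hd
  have h4 : (0 : ℝ) < 2 ^ (n - d) := by positivity
  have h5 : (0 : ℝ) < 2 ^ (d - j) := by positivity
  have h6 : 2 ^ (n - d) * |(S c : ℝ)| * (4 * 2 ^ (d - j)) = |(S c : ℝ)| * (4 * (2 ^ (n - d) * 2 ^ (d - j))) := by
    ring
  rw [h6]
  have h7 : (n : ℝ) * (2 * (2 * (2 ^ (n - d) * 2 ^ (d - j)))) = n * (4 * (2 ^ (n - d) * 2 ^ (d - j))) := by
    ring
  rw [h7]
  exact mul_le_mul_of_nonneg_right h3 (by positivity)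

/-- **Double counting.** -/
lemma nbs_sum {n j d : ℕ} (hjd : j ≤ d) (hd : d < n) :
    lev (d + 1) (fun c => ((nbs n j c).card : ℝ)) ≤ 2 ^ j * ((n : ℝ) + 2) := by
  have h1 : lev (d + 1) (fun c => ((nbs n j c).card : ℝ)) = ∑ w ∈ Le j,
      (((Le (d + 1)).filter fun c => ¬ (K n w ≤ K n c ↔ K n w ≤ K n (c / 2))).card : ℝ) := by
    unfold lev nbs
    simp only [card_filter]
    push_cast
    rw [sum_comm]
    rfl
  rw [h1]
  have h2 : ∀ w ∈ Le j,
      (((Le (d + 1)).filter fun c => ¬ (K n w ≤ K n c ↔ K n w ≤ K n (c / 2))).card : ℝ) ≤ (n : ℝ) + 2 := by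
    intro w hw
    have hw' : Vt n w := (mem_Le.1 hw).vt (by omega)
    set R : ℤ := 2 ^ (n - d) * n with hR
    set B := (Le d).filter fun v => |g4 n v - g4 n w| ≤ R with hB
    have hR0 : 0 ≤ R := by positivity
    have hc := count (n := n) (j := d) (B := B) (a := g4 n w - R) (b := g4 n w + R)
      (fun v hv => mem_Le.1 (mem_filter.1 hv).1)
      (fun v hv => by
        have := abs_le.1 (mem_filter.1 hv).2
        constructor <;> linarith) (by linarith)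
    have hc2 : (B.card : ℝ) ≤ n / 2 + 1 := by
      refine hc.trans (add_le_add (le_of_eq ?_) le_rfl)
      rw [hR]
      push_cast
      rw [show n + 1 - d = n - d + 1 by omega, pow_succ]
      field_simp
      ring
    have hsub : ((Le (d + 1)).filter fun c => ¬ (K n w ≤ K n c ↔ K n w ≤ K n (c / 2))) ⊆
        B.image (fun v => 2 * v) ∪ B.image (fun v => 2 * v + 1) := by
      intro c hc
      rw [mem_filter, mem_Le] at hc
      obtain ⟨hc1, hc2⟩ := hc
      have hv : c / 2 ∈ B := by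
        rw [hB, mem_filter, mem_Le]
        refine ⟨hc1.half, ?_⟩
        have b1 := between hd hc1 hw' hc2
        have b2 := max_sub_min' (g4 n c) (g4 n (c / 2))
        rw [g4_child hd hc1, abs_mul, abs_of_pos (show (0 : ℤ) < 2 ^ (n - d) by positivity)] at b2
        have b3 : |S c| ≤ (n : ℤ) := (S_abs hc1).trans (by exact_mod_cast hd)
        have b4 : (2 : ℤ) ^ (n - d) * |S c| ≤ R := mul_le_mul_of_nonneg_left b3 (by positivity)
        have b5 := le_max_right (g4 n c) (g4 n (c / 2))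
        have b6 := min_le_right (g4 n c) (g4 n (c / 2))
        rw [abs_le]
        constructor <;> linarith
      rw [mem_union, mem_image, mem_image]
      rcases Nat.even_or_odd' c with ⟨u, hu | hu⟩
      · left; exact ⟨c / 2, hv, by omega⟩
      · right; exact ⟨c / 2, hv, by omega⟩
    have h3 := (card_le_card hsub).trans (card_union_le _ _)
    have h4 := h3.trans (add_le_add card_image_le card_image_le)
    have h5 : (((Le (d + 1)).filter fun c => ¬ (K n w ≤ K n c ↔ K n w ≤ K n (c / 2))).card : ℝ) ≤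
        B.card + B.card := by exact_mod_cast h4
    linarith
  have h3 := sum_le_sum h2
  rw [sum_const, card_Le, nsmul_eq_mul] at h3
  push_cast at h3
  exact h3

lemma dD_sq {n j d c : ℕ} (hjd : j ≤ d) (hd : d < n) (h : Lv (d + 1) c) :
    dD n j c ^ 2 ≤ 2 * ((n / (4 * 2 ^ (d - j)) + 1) * (nbs n j c).card) +
      n ^ 2 / (32 * (2 ^ (d - j)) ^ 2) := by
  have h1 := rj_diff n j c
  have h2 := nbs_le hjd hd h
  have e : dD n j c = ((rj n j c : ℝ) - rj n j (c / 2)) - (G n c - G n (c / 2)) / 2 ^ (n + 1 - j) := by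
    unfold dD D; ring
  have h3 : |(G n c - G n (c / 2)) / 2 ^ (n + 1 - j)| ≤ n / (8 * 2 ^ (d - j)) := by
    have e : (2 : ℝ) ^ (n + 1 - j) = 2 * (2 ^ (n - d) * 2 ^ (d - j)) := by
      rw [← pow_add, ← pow_succ']; congr 1; omega
    rw [G_child hd h, e]
    have e2 : (2 : ℝ) ^ (n - d) * S c / 4 / (2 * (2 ^ (n - d) * 2 ^ (d - j))) =
        S c / (8 * 2 ^ (d - j)) := by
      field_simp
      ring
    rw [e2, abs_div, abs_of_pos (show (0 : ℝ) < 8 * 2 ^ (d - j) by positivity)]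
    exact div_le_div_of_nonneg_right (h.S_le hd) (by positivity)
  rw [e]
  set a := (rj n j c : ℝ) - rj n j (c / 2)
  set b := (G n c - G n (c / 2)) / 2 ^ (n + 1 - j)
  have h4 : (a - b) ^ 2 ≤ 2 * a ^ 2 + 2 * b ^ 2 := by nlinarith [sq_nonneg (a + b)]
  have h5 : a ^ 2 ≤ (n / (4 * 2 ^ (d - j)) + 1) * (nbs n j c).card := by
    rw [← sq_abs, sq]
    have h0 : (0 : ℝ) ≤ (nbs n j c).card := Nat.cast_nonneg _
    calc |a| * |a| ≤ (nbs n j c).card * (nbs n j c).card := mul_le_mul h1 h1 (abs_nonneg _) h0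
      _ ≤ (n / (4 * 2 ^ (d - j)) + 1) * (nbs n j c).card := mul_le_mul_of_nonneg_right h2 h0
  have h6 : b ^ 2 ≤ (n / (8 * 2 ^ (d - j))) ^ 2 := by
    rw [← sq_abs b]
    exact pow_le_pow_left₀ (abs_nonneg _) h3 2
  have h7 : ((n : ℝ) / (8 * 2 ^ (d - j))) ^ 2 = n ^ 2 / (64 * (2 ^ (d - j)) ^ 2) := by
    rw [div_pow, mul_pow]; norm_num
  have h8 : (2 : ℝ) * (n ^ 2 / (64 * (2 ^ (d - j)) ^ 2)) = n ^ 2 / (32 * (2 ^ (d - j)) ^ 2) := by
    field_simp
    ring
  rw [h7] at h6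
  linarith

/-- one level of edges, below the level `j` -/
lemma lev_dD {n j d : ℕ} (hjd : j ≤ d) (hd : d < n) : lev (d + 1) (fun c => dD n j c ^ 2) ≤
    2 ^ j * (2 * ((n : ℝ) + 2) + ((n : ℝ) * (n + 2) / 2 + n ^ 2 / 16) * (1 / 2) ^ (d - j)) := by
  have h1 : lev (d + 1) (fun c => dD n j c ^ 2) ≤ lev (d + 1) (fun c =>
      (2 * (n / (4 * 2 ^ (d - j)) + 1)) * (nbs n j c).card + n ^ 2 / (32 * (2 ^ (d - j)) ^ 2)) := by
    refine lev_le fun c h1 h2 => ?_
    have := dD_sq (n := n) hjd hd ⟨h1, h2⟩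
    linarith
  rw [lev_add, lev_mul, lev_const] at h1
  have h2 := nbs_sum (n := n) hjd hd
  have h3 : 2 * ((n : ℝ) / (4 * 2 ^ (d - j)) + 1) * lev (d + 1) (fun c => ((nbs n j c).card : ℝ)) ≤
      2 * ((n : ℝ) / (4 * 2 ^ (d - j)) + 1) * (2 ^ j * ((n : ℝ) + 2)) :=
    mul_le_mul_of_nonneg_left h2 (by positivity)
  refine h1.trans ((add_le_add h3 le_rfl).trans (le_of_eq ?_))
  have e : (2 : ℝ) ^ (d + 1) = 2 * (2 ^ j * 2 ^ (d - j)) := by
    rw [← pow_add, ← pow_succ']; congr 1; omega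
  rw [e, one_div, inv_pow]
  field_simp
  ring

/-- **The energy of the discrepancy of one level.** -/
lemma En_D {n j : ℕ} (hj : j ≤ n) : ∑ c ∈ Ico 2 (2 ^ (n + 1)), dD n j c ^ 2 ≤
    2 ^ j * (4 * ((n : ℝ) + 2) ^ 2) := by
  rw [sum_levels, range_eq_Ico, ← sum_Ico_consecutive _ (Nat.zero_le j) hj]
  have h1 : ∑ d ∈ Ico 0 j, lev (d + 1) (fun c => dD n j c ^ 2) ≤ 2 ^ j * (((n : ℝ) + 2) ^ 2 / 2) := by
    have a1 : ∀ d ∈ Ico 0 j, lev (d + 1) (fun c => dD n j c ^ 2) ≤ 2 ^ d * (((n : ℝ) + 2) ^ 2 / 2) := by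
      intro d hd
      rw [mem_Ico] at hd
      have a2 : lev (d + 1) (fun c => dD n j c ^ 2) ≤ lev (d + 1) (fun _ => ((n : ℝ) / 2 + 1) ^ 2) := by
        refine lev_le fun c h1 h2 => ?_
        rw [← sq_abs]
        exact pow_le_pow_left₀ (abs_nonneg _) (dD_sup hj (by omega) ⟨h1, h2⟩) 2
      rw [lev_const, pow_succ] at a2
      refine a2.trans (le_of_eq ?_)
      ring
    refine (sum_le_sum a1).trans ?_
    rw [← sum_mul]
    have a3 : ∑ d ∈ Ico 0 j, (2 : ℝ) ^ d ≤ 2 ^ j := by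
      rw [← range_eq_Ico, geom_sum_eq (by norm_num) j]
      norm_num
    exact mul_le_mul_of_nonneg_right a3 (by positivity)
  have h2 : ∑ d ∈ Ico j n, lev (d + 1) (fun c => dD n j c ^ 2) ≤
      2 ^ j * (2 * ((n : ℝ) + 2) * n + ((n : ℝ) * (n + 2) / 2 + n ^ 2 / 16) * 2) := by
    have a1 : ∑ d ∈ Ico j n, lev (d + 1) (fun c => dD n j c ^ 2) ≤
        ∑ d ∈ Ico j n, 2 ^ j * (2 * ((n : ℝ) + 2) +
          ((n : ℝ) * (n + 2) / 2 + n ^ 2 / 16) * (1 / 2) ^ (d - j)) := by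
      refine sum_le_sum fun d hd => ?_
      rw [mem_Ico] at hd
      exact lev_dD hd.1 hd.2
    refine a1.trans ?_
    rw [← mul_sum, sum_add_distrib, ← mul_sum, sum_const, Nat.card_Ico, nsmul_eq_mul,
      sum_Ico_eq_sum_range]
    have a2 : ∀ i ∈ range (n - j), ((n : ℝ) * (n + 2) / 2 + n ^ 2 / 16) * (1 / 2 : ℝ) ^ (j + i - j) =
        ((n : ℝ) * (n + 2) / 2 + n ^ 2 / 16) * (1 / 2) ^ i := by
      intro i _
      rw [Nat.add_sub_cancel_left]
    rw [sum_congr rfl a2, ← mul_sum]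
    have a3 : ∑ i ∈ range (n - j), (1 / 2 : ℝ) ^ i ≤ 2 := by
      rw [geom_sum_eq (by norm_num)]
      have : (0 : ℝ) ≤ (1 / 2) ^ (n - j) := by positivity
      have e2 : ((1 / 2 : ℝ) ^ (n - j) - 1) / (1 / 2 - 1) = 2 - 2 * (1 / 2) ^ (n - j) := by ring
      rw [e2]
      linarith
    have a4 : ((n - j : ℕ) : ℝ) ≤ n := by exact_mod_cast Nat.sub_le n j
    apply mul_le_mul_of_nonneg_left _ (by positivity)
    apply add_le_add
    · have : 2 * (((n - j : ℕ) : ℝ) * ((n : ℝ) + 2)) = 2 * ((n : ℝ) + 2) * ((n - j : ℕ) : ℝ) := by ring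
      rw [this]
      exact mul_le_mul_of_nonneg_left a4 (by positivity)
    · exact mul_le_mul_of_nonneg_left a3 (by positivity)
  refine (add_le_add h1 h2).trans ?_
  rw [← mul_add]
  apply mul_le_mul_of_nonneg_left _ (by positivity)
  have : (0 : ℝ) ≤ n := Nat.cast_nonneg n
  nlinarith

/-- weights -/
lemma sum_w (n : ℕ) : ∑ j ∈ range (n + 1), (3 / 4 : ℝ) ^ (n - j) ≤ 4 := by
  have h := sum_range_reflect (fun j => (3 / 4 : ℝ) ^ j) (n + 1)
  have e : ∀ j ∈ range (n + 1), (3 / 4 : ℝ) ^ (n + 1 - 1 - j) = (3 / 4 : ℝ) ^ (n - j) :=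
    fun j _ => by rw [Nat.add_sub_cancel]
  rw [sum_congr rfl e] at h
  rw [h, geom_sum_eq (by norm_num)]
  have : (0 : ℝ) ≤ (3 / 4) ^ (n + 1) := by positivity
  have e2 : ((3 / 4 : ℝ) ^ (n + 1) - 1) / (3 / 4 - 1) = 4 - 4 * (3 / 4) ^ (n + 1) := by ring
  rw [e2]
  linarith

lemma sum_w2 (n : ℕ) : ∑ j ∈ range (n + 1), (4 / 3 : ℝ) ^ (n - j) * 2 ^ j ≤ 3 * 2 ^ n := by
  have h := sum_range_reflect (fun j => (2 / 3 : ℝ) ^ j) (n + 1)
  have e : ∀ j ∈ range (n + 1), (4 / 3 : ℝ) ^ (n - j) * 2 ^ j = 2 ^ n * (2 / 3) ^ (n + 1 - 1 - j) := by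
    intro j hj
    rw [mem_range] at hj
    rw [Nat.add_sub_cancel]
    have e1 : (2 : ℝ) ^ n = 2 ^ (n - j) * 2 ^ j := by rw [← pow_add]; congr 1; omega
    have e2 : (4 / 3 : ℝ) ^ (n - j) = 2 ^ (n - j) * (2 / 3) ^ (n - j) := by
      rw [← mul_pow]; norm_num
    rw [e1, e2]
    ring
  rw [sum_congr rfl e, ← mul_sum, h, geom_sum_eq (by norm_num), mul_comm]
  apply mul_le_mul_of_nonneg_right _ (by positivity)
  have : (0 : ℝ) ≤ (2 / 3) ^ (n + 1) := by positivity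
  have e2 : ((2 / 3 : ℝ) ^ (n + 1) - 1) / (2 / 3 - 1) = 3 - 3 * (2 / 3) ^ (n + 1) := by ring
  rw [e2]
  linarith

/-- one edge -/
lemma er_edge {n d c : ℕ} (hd : d < n) (h : Lv (d + 1) c) : (er n c - er n (c / 2)) ^ 2 ≤
    8 * ∑ j ∈ range (n + 1), (4 / 3 : ℝ) ^ (n - j) * dD n j c ^ 2 + 2 := by
  have e : er n c - er n (c / 2) = ∑ j ∈ range (n + 1), dD n j c +
      (G n (c / 2) / 2 ^ (n + 1) - G n c / 2 ^ (n + 1)) := by
    rw [er_eq, er_eq]
    unfold dD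
    rw [sum_sub_distrib]
    ring
  have h1 : (∑ j ∈ range (n + 1), dD n j c) ^ 2 ≤ (∑ j ∈ range (n + 1), (3 / 4 : ℝ) ^ (n - j)) *
      ∑ j ∈ range (n + 1), (4 / 3 : ℝ) ^ (n - j) * dD n j c ^ 2 := by
    refine sum_sq_le_sum_mul_sum_of_sq_le_mul _ (fun j _ => by positivity) (fun j _ => by positivity)
      fun j _ => ?_
    rw [← mul_assoc, ← mul_pow]
    norm_num
  have h2 : (∑ j ∈ range (n + 1), (3 / 4 : ℝ) ^ (n - j)) *
      ∑ j ∈ range (n + 1), (4 / 3 : ℝ) ^ (n - j) * dD n j c ^ 2 ≤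
      4 * ∑ j ∈ range (n + 1), (4 / 3 : ℝ) ^ (n - j) * dD n j c ^ 2 :=
    mul_le_mul_of_nonneg_right (sum_w n) (sum_nonneg fun j _ => by positivity)
  have g1 := G_lo (h.vt (n := n) (by omega))
  have g2 := G_hi (h.vt (n := n) (by omega))
  have g3 := G_lo (h.half.vt (n := n) (by omega))
  have g4 := G_hi (h.half.vt (n := n) (by omega))
  rw [e]
  set a := ∑ j ∈ range (n + 1), dD n j c
  set b := G n (c / 2) / 2 ^ (n + 1) - G n c / 2 ^ (n + 1)
  have h3 : (a + b) ^ 2 ≤ 2 * a ^ 2 + 2 * b ^ 2 := by nlinarith [sq_nonneg (a - b)]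
  have h4 : b ^ 2 ≤ 1 := by
    have b1 : -1 ≤ b := by linarith
    have b2 : b ≤ 1 := by linarith
    nlinarith
  linarith

/-- **The energy of the error.** -/
theorem En_er (n : ℕ) : En (er n) n ≤ 2 ^ n * (96 * ((n : ℝ) + 2) ^ 2 + 4) := by
  have h1 : En (er n) n ≤ ∑ c ∈ Ico 2 (2 ^ (n + 1)),
      (8 * ∑ j ∈ range (n + 1), (4 / 3 : ℝ) ^ (n - j) * dD n j c ^ 2 + 2) := by
    refine sum_le_sum fun c hc => ?_
    rw [mem_Ico] at hc
    obtain ⟨d, hd, hv⟩ := Vt.lv (n := n) (v := c) ⟨by omega, hc.2⟩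
    rcases Nat.eq_zero_or_pos d with rfl | hd0
    · have := Lv_zero hv; omega
    · obtain ⟨d', rfl⟩ : ∃ d', d = d' + 1 := ⟨d - 1, by omega⟩
      exact er_edge (by omega) hv
  have h2 : ∑ c ∈ Ico 2 (2 ^ (n + 1)),
      (8 * ∑ j ∈ range (n + 1), (4 / 3 : ℝ) ^ (n - j) * dD n j c ^ 2 + 2) =
      8 * ∑ j ∈ range (n + 1), (4 / 3 : ℝ) ^ (n - j) * ∑ c ∈ Ico 2 (2 ^ (n + 1)), dD n j c ^ 2 +
        ((2 ^ (n + 1) - 2 : ℕ) : ℝ) * 2 := by
    rw [sum_add_distrib, ← mul_sum, sum_comm, sum_const, Nat.card_Ico, nsmul_eq_mul]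
    simp only [mul_sum]
  rw [h2] at h1
  have h3 : ∑ j ∈ range (n + 1), (4 / 3 : ℝ) ^ (n - j) * ∑ c ∈ Ico 2 (2 ^ (n + 1)), dD n j c ^ 2 ≤
      ∑ j ∈ range (n + 1), ((4 / 3 : ℝ) ^ (n - j) * 2 ^ j) * (4 * ((n : ℝ) + 2) ^ 2) := by
    refine sum_le_sum fun j hj => ?_
    rw [mem_range] at hj
    rw [mul_assoc]
    exact mul_le_mul_of_nonneg_left (En_D (by omega)) (by positivity)
  rw [← sum_mul] at h3
  have h4 : (∑ j ∈ range (n + 1), (4 / 3 : ℝ) ^ (n - j) * 2 ^ j) * (4 * ((n : ℝ) + 2) ^ 2) ≤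
      3 * 2 ^ n * (4 * ((n : ℝ) + 2) ^ 2) := mul_le_mul_of_nonneg_right (sum_w2 n) (by positivity)
  have h5 : ((2 ^ (n + 1) - 2 : ℕ) : ℝ) ≤ 2 * 2 ^ n := by
    have : 2 ^ (n + 1) - 2 ≤ 2 * 2 ^ n := by rw [pow_succ]; omega
    exact_mod_cast this
  linarith

/-- **The upper bound**: the labels `rk`. -/
theorem En_rk (n : ℕ) : En (fun v => (rk n v : ℝ)) n ≤ 4 ^ (n + 1) / 8 +
    2 ^ (n + 1) * (2 * ((n : ℝ) + 1) ^ 2 + 48 * ((n : ℝ) + 2) ^ 2 + 2) := by
  have h1 : En (fun v => (rk n v : ℝ)) n = En (G n) n +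
      2 * ∑ c ∈ Ico 2 (2 ^ (n + 1)), (G n c - G n (c / 2)) * (er n c - er n (c / 2)) + En (er n) n := by
    unfold En
    rw [mul_sum, ← sum_add_distrib, ← sum_add_distrib]
    refine sum_congr rfl fun c _ => ?_
    unfold er
    ring
  rw [h1, cross]
  have h2 := En_G n
  have h3 := cross_le n
  have h4 := En_er n
  rw [pow_succ 2 n]
  linarith

end Pool.Agent.H86.BT
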