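import Mathlib
import Pool.Agent.H86.BT.Low3
import Pool.Agent.H86.BT.Up4

set_option autoImplicit false
open Finset

/-! # Words and heap order -/

namespace Pool.Agent.H86.BT

/-- heap number of a word -/
def enc : List Bool → ℕ
  | [] => 1
  | b :: w => 2 * enc w + b.toNat

lemma enc_lv (w : List Bool) : Lv w.length (enc w) := by
  induction w with
  | nil => unfold Lv enc; norm_num
  | cons b w ih =>
    rw [List.length_cons, enc]
    cases b
    · exact ih.even
    · exact ih.odd

lemma enc_pos (w : List Bool) : 1 ≤ enc w := (enc_lv w).one_le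

lemma enc_half (b : Bool) (w : List Bool) : enc (b :: w) / 2 = enc w := by
  rw [enc]; cases b <;> simp only [Bool.toNat_true, Bool.toNat_false] <;> omega

lemma enc_inj : Function.Injective enc := by
  intro w
  induction w with
  | nil =>
    intro w' h
    cases w' with
    | nil => rfl
    | cons b w' =>
      exfalso
      have := enc_pos w'
      rw [enc, enc] at h
      omega
  | cons b w ih =>
    intro w' h
    cases w' with
    | nil =>
      exfalso
      have := enc_pos w
      rw [enc, enc] at h
      omega
    | cons b' w' =>
      have h1 : enc w = enc w' := by rw [← enc_half b w, h, enc_half]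
      have h2 := ih h1
      subst h2
      rw [enc, enc] at h
      cases b <;> cases b' <;> simp only [Bool.toNat_true, Bool.toNat_false] at h ⊢ <;> omega

lemma enc_surj : ∀ v : ℕ, 1 ≤ v → ∃ w, enc w = v := by
  intro v
  induction v using Nat.strong_induction_on with
  | _ v ih =>
    intro hv
    rcases Nat.lt_or_ge v 2 with h | h
    · exact ⟨[], by rw [enc]; omega⟩
    · obtain ⟨w, hw⟩ := ih (v / 2) (by omega) (by omega)
      refine ⟨decide (v % 2 = 1) :: w, ?_⟩
      rw [enc, hw]
      by_cases h1 : v % 2 = 1
      · rw [decide_eq_true h1, Bool.toNat_true]; omega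
      · rw [decide_eq_false h1, Bool.toNat_false]; omega

lemma enc_lt {n : ℕ} {w : List Bool} (h : w.length < n + 1) : enc w < 2 ^ (n + 1) :=
  (enc_lv w).2.trans_le (Nat.pow_le_pow_right (by norm_num) (by omega))

lemma len_lt {n : ℕ} {w : List Bool} (h : enc w < 2 ^ (n + 1)) : w.length < n + 1 := by
  by_contra hc
  have := (enc_lv w).1
  have h2 : 2 ^ (n + 1) ≤ 2 ^ w.length := Nat.pow_le_pow_right (by norm_num) (by omega)
  omega

end Pool.Agent.H86.BT
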